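import Pool.Agent.Work.MP_3e8c7a_k.Interface

/-!
# MP_3e8c7a_an: block COD, spaces with isomorphic subspaces of the same finite codimension
-/

namespace Pool.Agent.MP3e8c7ak

open Module MP3e8c7a

lemma COD_top {V : Type*} [AddCommGroup V] [Module ℝ V] (p : Seminorm ℝ V) (X : Submodule ℝ V)
    (hX : X = ⊤) : Iso 1 (p.comp X.subtype) p := by
  subst hX
  refine ⟨Submodule.topEquiv, fun x => ?_⟩
  have e : (p.comp (⊤ : Submodule ℝ V).subtype) x = p (Submodule.topEquiv x) := rfl
  rw [e, one_mul]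
  exact ⟨le_refl _, le_refl _⟩

lemma COD_split {V : Type*} [AddCommGroup V] [Module ℝ V] [FiniteDimensional ℝ V]
    (p : Seminorm ℝ V) (hp : Def p) (D E : Submodule ℝ V) (hE : D ≤ E)
    (hf : finrank ℝ D + 1 = finrank ℝ E) :
    Iso 5 (ds (p.comp D.subtype) (normSeminorm ℝ ℝ)) (p.comp E.subtype) := by
  have e1 : finrank ℝ (D.comap E.subtype) = finrank ℝ D :=
    LinearEquiv.finrank_eq (Submodule.comapSubtypeEquivOfLe hE)
  have e2 := hyper_split (p.comp E.subtype) (hp.comp _ Subtype.val_injective)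
    (D.comap E.subtype) (by rw [e1, hf])
  have e3 := ((comap_iso p hE).symm one_pos).ds (Iso.refl (normSeminorm ℝ ℝ))
  have e4 := e3.trans e2 (by norm_num)
  exact e4.mono (by norm_num)

lemma COD_succ {V : Type*} [AddCommGroup V] [Module ℝ V] [FiniteDimensional ℝ V]
    (X : Submodule ℝ V) (hX : finrank ℝ X < finrank ℝ V) :
    ∃ F : Submodule ℝ V, X ≤ F ∧ finrank ℝ F = finrank ℝ X + 1 := by
  have hne : ∃ x, x ∉ X := by
    by_contra h
    push Not at h
    have : X = ⊤ := (Submodule.eq_top_iff').2 h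
    rw [this, finrank_top] at hX
    omega
  obtain ⟨v, hv⟩ := hne
  refine ⟨X ⊔ Submodule.span ℝ {v}, le_sup_left, ?_⟩
  have h1 := Submodule.finrank_sup_add_finrank_inf_eq X (Submodule.span ℝ {v})
  have h2 : finrank ℝ (Submodule.span ℝ {v}) = 1 :=
    finrank_span_singleton (fun h => hv (h ▸ X.zero_mem))
  have h3 : X < X ⊔ Submodule.span ℝ {v} := by
    refine lt_of_le_of_ne le_sup_left (fun h => hv ?_)
    rw [h]
    exact Submodule.mem_sup_right (Submodule.mem_span_singleton_self v)
  have h4 := Submodule.finrank_lt_finrank_of_lt h3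
  omega

theorem COD : Stmt_COD := by
  intro m
  induction m with
  | zero =>
    intro c hc
    refine ⟨c, hc, fun V W _ _ _ _ _ _ p r _ _ X Y hX hY h => ?_⟩
    have hX' : X = ⊤ := Submodule.eq_top_of_finrank_eq (by simpa using hX)
    have hY' : Y = ⊤ := Submodule.eq_top_of_finrank_eq (by simpa using hY)
    have h1 := ((COD_top p X hX').symm one_pos).trans h (by linarith)
    have h2 := h1.trans (COD_top r Y hY') zero_le_one
    exact h2.mono (by linarith)
  | succ m ih =>
    intro c hc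
    obtain ⟨C, hC, hmain⟩ := ih (25 * c) (by linarith)
    refine ⟨C, hC, fun V W _ _ _ _ _ _ p r hp hr X Y hX hY h => ?_⟩
    obtain ⟨X₁, hX₁, hX₁'⟩ := COD_succ X (by omega)
    obtain ⟨Y₁, hY₁, hY₁'⟩ := COD_succ Y (by omega)
    have k1 := COD_split p hp X X₁ hX₁ (by omega)
    have k2 := COD_split r hr Y Y₁ hY₁ (by omega)
    have k3 := h.ds ((Iso.refl (normSeminorm ℝ ℝ)).mono hc)
    have k4 := (k1.symm (by norm_num)).trans k3 (by linarith)
    have k5 := (k4.trans k2 (by norm_num)).mono (d := 25 * c) (by linarith)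
    exact hmain V W p r hp hr X₁ Y₁ (by omega) (by omega) k5

end Pool.Agent.MP3e8c7ak

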