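import Pool.Agent.Work.MP_3e8c7a_k.Interface

set_option autoImplicit false

/-!
# Block MOM: moments of a Rademacher sum
-/

namespace Pool.Agent.MP3e8c7ak

theorem MOM_dt {s : ℕ} (x : Fin (s + 1) → ℝ) (c : Bool) (g : Fin s → Bool) :
    dt (Fin.cons c g : Fin (s + 1) → Bool) x = sg c * x 0 + dt g (Fin.tail x) := by
  unfold dt
  rw [Fin.sum_univ_succ]
  simp [Fin.tail]

theorem MOM_key {s : ℕ} (x : Fin (s + 1) → ℝ) (F : ℝ → ℝ) :
    ∑ g : Fin (s + 1) → Bool, F (dt g x) =
      ∑ g : Fin s → Bool, (F (x 0 + dt g (Fin.tail x)) + F (-x 0 + dt g (Fin.tail x))) := by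
  rw [← Equiv.sum_comp (Fin.consEquiv (fun _ : Fin (s + 1) => Bool))
    (fun g : Fin (s + 1) → Bool => F (dt g x)), Fintype.sum_prod_type, Fintype.sum_bool,
    ← Finset.sum_add_distrib]
  apply Finset.sum_congr rfl
  intro g _
  have h1 : dt ((Fin.consEquiv (fun _ : Fin (s + 1) => Bool)) (true, g)) x =
      x 0 + dt g (Fin.tail x) := by
    have h := MOM_dt x true g
    rw [show sg true = 1 from rfl, one_mul] at h
    exact h
  have h2 : dt ((Fin.consEquiv (fun _ : Fin (s + 1) => Bool)) (false, g)) x =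
      -x 0 + dt g (Fin.tail x) := by
    have h := MOM_dt x false g
    rw [show sg false = -1 from rfl, neg_one_mul] at h
    exact h
  rw [h1, h2]

theorem MOM_sq {s : ℕ} (x : Fin (s + 1) → ℝ) : sq x = x 0 ^ 2 + sq (Fin.tail x) := by
  unfold sq
  rw [Fin.sum_univ_succ]
  rfl

theorem MOM : Stmt_MOM := by
  intro s
  induction s with
  | zero =>
    intro x
    simp [dt, sq]
  | succ s ih =>
    intro x
    obtain ⟨h2, h4⟩ := ih (Fin.tail x)
    have hcard : ∑ _g : Fin s → Bool, (1 : ℝ) = 2 ^ s := by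
      simp
    have hS : 0 ≤ sq (Fin.tail x) := Finset.sum_nonneg (fun _ _ => sq_nonneg _)
    have hs : (0 : ℝ) < 2 ^ s := by positivity
    constructor
    · rw [MOM_key x (fun t => t ^ 2), MOM_sq x]
      have h : ∑ g : Fin s → Bool, ((x 0 + dt g (Fin.tail x)) ^ 2 + (-x 0 + dt g (Fin.tail x)) ^ 2) =
          2 * ∑ g : Fin s → Bool, dt g (Fin.tail x) ^ 2 +
            2 * x 0 ^ 2 * ∑ _g : Fin s → Bool, (1 : ℝ) := by
        rw [Finset.mul_sum, Finset.mul_sum, ← Finset.sum_add_distrib]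
        apply Finset.sum_congr rfl
        intro g _
        ring
      rw [h, h2, hcard]
      ring
    · rw [MOM_key x (fun t => t ^ 4), MOM_sq x]
      have h : ∑ g : Fin s → Bool, ((x 0 + dt g (Fin.tail x)) ^ 4 + (-x 0 + dt g (Fin.tail x)) ^ 4) =
          2 * ∑ g : Fin s → Bool, dt g (Fin.tail x) ^ 4 +
            12 * x 0 ^ 2 * ∑ g : Fin s → Bool, dt g (Fin.tail x) ^ 2 +
            2 * x 0 ^ 4 * ∑ _g : Fin s → Bool, (1 : ℝ) := by
        rw [Finset.mul_sum, Finset.mul_sum, Finset.mul_sum, ← Finset.sum_add_distrib,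
          ← Finset.sum_add_distrib]
        apply Finset.sum_congr rfl
        intro g _
        ring
      rw [h, h2, hcard]
      have h5 : 2 * ∑ g : Fin s → Bool, dt g (Fin.tail x) ^ 4 ≤
          2 * (3 * 2 ^ s * sq (Fin.tail x) ^ 2) := by linarith
      have h6 : (0 : ℝ) ≤ 2 ^ s * x 0 ^ 4 := by positivity
      rw [pow_succ (2 : ℝ) s]
      nlinarith [h5, h6]

end Pool.Agent.MP3e8c7ak
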