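import Pool.Agent.Work.MP_3e8c7a_k.Interface

/-! # Block EUC: a matrix with small Hilbert-Schmidt norm is small off few dimensions -/

set_option autoImplicit false

namespace Pool.Agent.MP3e8c7ak

open Module

/-- The square of the norm of the image of `x`. -/
def EUC_q {n : ℕ} (u : Fin n → Fin n → ℝ) (x : EuclideanSpace ℝ (Fin n)) : ℝ :=
  ∑ i, (∑ j, u i j * x j) ^ 2

theorem EUC_q_smul {n : ℕ} (u : Fin n → Fin n → ℝ) (c : ℝ) (x : EuclideanSpace ℝ (Fin n)) :
    EUC_q u (c • x) = c ^ 2 * EUC_q u x := by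
  simp only [EUC_q, PiLp.smul_apply, smul_eq_mul]
  rw [Finset.mul_sum]
  refine Finset.sum_congr rfl fun i _ => ?_
  rw [← mul_pow, Finset.mul_sum]
  congr 1
  refine Finset.sum_congr rfl fun j _ => ?_
  ring

theorem EUC_q_inner {n : ℕ} (u : Fin n → Fin n → ℝ) (x : EuclideanSpace ℝ (Fin n)) :
    EUC_q u x = ∑ i, ‖inner ℝ x (WithLp.toLp 2 (u i) : EuclideanSpace ℝ (Fin n))‖ ^ 2 := by
  simp only [EUC_q]
  refine Finset.sum_congr rfl fun i _ => ?_
  rw [Real.norm_eq_abs, sq_abs]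
  congr 1

theorem EUC_norm {n : ℕ} (x : EuclideanSpace ℝ (Fin n)) : ‖x‖ ^ 2 = ∑ j, x j ^ 2 := by
  rw [EuclideanSpace.real_norm_sq_eq]

theorem EUC_bessel {n m : ℕ} (u : Fin n → Fin n → ℝ) (hu : ∑ i, ∑ j, u i j ^ 2 ≤ (m : ℝ) / 4)
    {l : ℕ} (e : Fin l → EuclideanSpace ℝ (Fin n)) (he : Orthonormal ℝ e)
    (hq : ∀ k, 1 / 4 < EUC_q u (e k)) : l ≤ m := by
  have h1 : ∑ k, EUC_q u (e k) ≤ (m : ℝ) / 4 := by
    have h2 : ∑ k, EUC_q u (e k)
        = ∑ i, ∑ k, ‖inner ℝ (e k) (WithLp.toLp 2 (u i) : EuclideanSpace ℝ (Fin n))‖ ^ 2 := by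
      rw [Finset.sum_comm]
      exact Finset.sum_congr rfl fun k _ => EUC_q_inner u (e k)
    rw [h2]
    refine le_trans (Finset.sum_le_sum fun i _ => ?_) hu
    have h3 := he.sum_inner_products_le (x := (WithLp.toLp 2 (u i) : EuclideanSpace ℝ (Fin n)))
      (s := Finset.univ)
    refine h3.trans ?_
    rw [EUC_norm]
  have h2 : (l : ℝ) * (1 / 4) ≤ ∑ k, EUC_q u (e k) := by
    have : ∑ _k : Fin l, (1 / 4 : ℝ) ≤ ∑ k, EUC_q u (e k) :=
      Finset.sum_le_sum fun k _ => (hq k).le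
    rw [Finset.sum_const, Finset.card_univ, Fintype.card_fin, nsmul_eq_mul] at this
    exact this
  have h3 : (l : ℝ) ≤ m := by linarith
  exact_mod_cast h3

/-- **Block EUC.** -/
theorem EUC : Stmt_EUC := by
  intro n m u hu
  set P : ℕ → Prop := fun l => ∃ e : Fin l → EuclideanSpace ℝ (Fin n), Orthonormal ℝ e ∧
    ∀ k, 1 / 4 < EUC_q u (e k) with hP
  have hP0 : P 0 := ⟨fun k => k.elim0, ⟨fun k => k.elim0, fun {k} => k.elim0⟩, fun k => k.elim0⟩
  obtain ⟨l, ⟨e, he, hq⟩, hl⟩ : ∃ l, P l ∧ ¬ P (l + 1) := by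
    by_contra hc
    push Not at hc
    have hall : ∀ l, P l := by
      intro l
      induction l with
      | zero => exact hP0
      | succ l ih => exact hc l ih
    obtain ⟨e, he, hq⟩ := hall (m + 1)
    have := EUC_bessel u hu e he hq
    omega
  have hlm : l ≤ m := EUC_bessel u hu e he hq
  set K := Submodule.span ℝ (Set.range e) with hK
  refine ⟨Submodule.map (WithLp.linearEquiv 2 ℝ (Fin n → ℝ)).toLinearMap Kᗮ, ?_, ?_⟩
  · have h1 : finrank ℝ (Submodule.map (WithLp.linearEquiv 2 ℝ (Fin n → ℝ)).toLinearMap Kᗮ)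
        = finrank ℝ Kᗮ := LinearEquiv.finrank_map_eq (WithLp.linearEquiv 2 ℝ (Fin n → ℝ)) Kᗮ
    have h2 := Submodule.finrank_add_finrank_orthogonal K
    rw [finrank_euclideanSpace, Fintype.card_fin] at h2
    have h3 : finrank ℝ K ≤ l := by
      have := finrank_range_le_card (R := ℝ) e
      rw [Fintype.card_fin] at this
      exact this
    rw [h1]
    omega
  · rintro _ ⟨v, hv, rfl⟩
    by_contra hc
    push Not at hc
    have hc' : 1 / 4 * ‖v‖ ^ 2 < EUC_q u v := by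
      rw [EUC_norm]
      exact hc
    have hv0 : v ≠ 0 := by
      rintro rfl
      simp [EUC_q] at hc'
    have hvn : 0 < ‖v‖ := norm_pos_iff.2 hv0
    apply hl
    refine ⟨Fin.cons (‖v‖⁻¹ • v) e, ⟨?_, ?_⟩, ?_⟩
    · intro i
      refine Fin.cases ?_ (fun k => ?_) i
      · rw [Fin.cons_zero, norm_smul, norm_inv, norm_norm, inv_mul_cancel₀ hvn.ne']
      · rw [Fin.cons_succ]; exact he.1 k
    · have hin : ∀ k, inner ℝ (e k) v = 0 := fun k =>
        (Submodule.mem_orthogonal K v).1 hv (e k) (Submodule.subset_span ⟨k, rfl⟩)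
      intro i j
      refine Fin.cases ?_ (fun k => ?_) i
      · refine Fin.cases ?_ (fun k' => ?_) j
        · intro h; exact absurd rfl h
        · intro _
          change inner ℝ (‖v‖⁻¹ • v) (e k') = 0
          rw [real_inner_smul_left, real_inner_comm, hin, mul_zero]
      · refine Fin.cases ?_ (fun k' => ?_) j
        · intro _
          change inner ℝ (e k) (‖v‖⁻¹ • v) = 0
          rw [real_inner_smul_right, hin, mul_zero]
        · intro h
          change inner ℝ (e k) (e k') = 0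
          exact he.2 fun hkk => h (by rw [hkk])
    · intro i
      refine Fin.cases ?_ (fun k => ?_) i
      · rw [Fin.cons_zero, EUC_q_smul]
        have h1 : (‖v‖⁻¹) ^ 2 * (1 / 4 * ‖v‖ ^ 2) < (‖v‖⁻¹) ^ 2 * EUC_q u v :=
          mul_lt_mul_of_pos_left hc' (by positivity)
        have h2 : (‖v‖⁻¹) ^ 2 * (1 / 4 * ‖v‖ ^ 2) = 1 / 4 := by
          field_simp
        rwa [h2] at h1
      · rw [Fin.cons_succ]; exact hq k

end Pool.Agent.MP3e8c7ak
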