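import Pool.Agent.Work.MP_3e8c7a_k.Interface

/-!
# MP_3e8c7a_an, part 2, block KAS (helper41)
-/

namespace Pool.Agent.MP3e8c7ak

namespace KASaux

theorem dt_sub {s : ℕ} (g : Fin s → Bool) (x y : Fin s → ℝ) :
    dt g (x - y) = dt g x - dt g y := by
  unfold dt
  rw [← Finset.sum_sub_distrib]
  refine Finset.sum_congr rfl (fun a _ => ?_)
  rw [Pi.sub_apply]
  ring

theorem dt_smul {s : ℕ} (g : Fin s → Bool) (r : ℝ) (x : Fin s → ℝ) :
    dt g (r • x) = r * dt g x := by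
  unfold dt
  rw [Finset.mul_sum]
  refine Finset.sum_congr rfl (fun a _ => ?_)
  rw [Pi.smul_apply, smul_eq_mul]
  ring

theorem sq_nonneg' {d : ℕ} (x : Fin d → ℝ) : 0 ≤ sq x :=
  Finset.sum_nonneg (fun _ _ => sq_nonneg _)

theorem sq_smul {d : ℕ} (r : ℝ) (x : Fin d → ℝ) : sq (r • x) = r ^ 2 * sq x := by
  unfold sq
  rw [Finset.mul_sum]
  refine Finset.sum_congr rfl (fun a _ => ?_)
  rw [Pi.smul_apply, smul_eq_mul]
  ring

theorem sq_near {d : ℕ} (x y : Fin d → ℝ) (hx : sq x = 1) (hxy : sq (x - y) ≤ 1 / 250000) :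
    3 / 4 ≤ sq y ∧ sq y ≤ 5 / 4 := by
  have h1 : sq y = sq x - 2 * ∑ a, x a * (x a - y a) + sq (x - y) := by
    unfold sq
    rw [Finset.mul_sum, ← Finset.sum_sub_distrib, ← Finset.sum_add_distrib]
    refine Finset.sum_congr rfl (fun a _ => ?_)
    rw [Pi.sub_apply]
    ring
  have h2 : (∑ a, x a * (x a - y a)) ^ 2 ≤ 1 / 250000 := by
    have := Finset.sum_mul_sq_le_sq_mul_sq Finset.univ x (fun a => x a - y a)
    have h3 : (∑ a, (x a) ^ 2) = 1 := hx
    have h4 : (∑ a, (x a - y a) ^ 2) = sq (x - y) := rfl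
    rw [h3, h4, one_mul] at this
    linarith
  have h5 : |∑ a, x a * (x a - y a)| ≤ 1 / 500 := by
    apply abs_le_of_sq_le_sq
    · calc (∑ a, x a * (x a - y a)) ^ 2 ≤ 1 / 250000 := h2
        _ = (1 / 500) ^ 2 := by norm_num
    · norm_num
  have h6 := abs_le.mp h5
  have h7 := sq_nonneg' (x - y)
  constructor <;> linarith [h6.1, h6.2]

end KASaux

open KASaux in
theorem KAS (hL : Stmt_LOW) (hN : Stmt_NET) (hO : Stmt_OPN) : Stmt_KAS := by
  classical
  set A : ℝ := 3 * 2 ^ ((250 + 1) ^ 2) with hA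
  have hA0 : 0 < A := by rw [hA]; positivity
  clear_value A
  obtain ⟨D0, hD0⟩ := exists_pow_lt_of_lt_one (show (0 : ℝ) < 1 / (4 * A) by positivity)
    (show (19 / 20 : ℝ) < 1 by norm_num)
  have hD : A * (19 / 20 : ℝ) ^ (D0 + 1) ≤ 1 / 4 := by
    have h1 : (19 / 20 : ℝ) ^ (D0 + 1) ≤ 1 / (4 * A) :=
      (pow_le_pow_of_le_one (by norm_num) (by norm_num) (Nat.le_succ D0)).trans hD0.le
    calc A * (19 / 20 : ℝ) ^ (D0 + 1) ≤ A * (1 / (4 * A)) :=
          mul_le_mul_of_nonneg_left h1 hA0.le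
      _ = 1 / 4 := by field_simp
  refine ⟨D0 + 1, by omega, ?_⟩
  intro n s hn hs
  rcases Nat.eq_zero_or_pos s with hs0 | hs0
  · subst hs0
    refine ⟨fun _ _ => 0, fun x _ => Subsingleton.elim _ _, fun x => ?_⟩
    simp
  have hsn : s ≤ n := by nlinarith
  obtain ⟨N, hNc, hNcov⟩ := hN 250 s (by norm_num)
  have hNc' : (N.card : ℝ) ≤ A ^ s := by
    rw [hA]
    exact_mod_cast hNc
  have hn0 : (0 : ℝ) < n := by exact_mod_cast hn
  -- bad sets
  set P : (Fin s → ℝ) → Finset (Fin n → Fin s → Bool) := fun y =>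
    Finset.univ.filter (fun G => ∑ i, |dt (G i) y| < (n : ℝ) / 10) with hP
  set N' : Finset (Fin s → ℝ) := N.filter (fun y => 3 / 4 ≤ sq y ∧ sq y ≤ 5 / 4) with hN'
  set B1 : Finset (Fin n → Fin s → Bool) := N'.biUnion P with hB1
  set B2 : Finset (Fin n → Fin s → Bool) := Finset.univ.filter (fun G =>
    ¬ ∀ x : Fin s → ℝ, ∑ i, (dt (G i) x) ^ 2 ≤ 430 * n * sq x) with hB2
  have hpow : (A * (19 / 20 : ℝ) ^ (D0 + 1)) ^ s ≤ 1 / 4 := by
    calc (A * (19 / 20 : ℝ) ^ (D0 + 1)) ^ s ≤ (1 / 4) ^ s :=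
          pow_le_pow_left₀ (by positivity) hD s
      _ ≤ (1 / 4) ^ 1 := pow_le_pow_of_le_one (by norm_num) (by norm_num) hs0
      _ = 1 / 4 := by norm_num
  have h19 : (19 / 20 : ℝ) ^ n ≤ ((19 / 20 : ℝ) ^ (D0 + 1)) ^ s := by
    rw [← pow_mul]
    exact pow_le_pow_of_le_one (by norm_num) (by norm_num) hs
  have c1 : (B1.card : ℝ) ≤ 1 / 4 * 2 ^ (s * n) := by
    calc (B1.card : ℝ) ≤ ∑ y ∈ N', ((P y).card : ℝ) := by
          exact_mod_cast Finset.card_biUnion_le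
      _ ≤ ∑ y ∈ N', (2 ^ (s * n) * (19 / 20 : ℝ) ^ n) := by
          refine Finset.sum_le_sum (fun y hy => ?_)
          have := (Finset.mem_filter.mp hy).2
          exact hL n s y this.1 this.2
      _ = (N'.card : ℝ) * (2 ^ (s * n) * (19 / 20 : ℝ) ^ n) := by
          rw [Finset.sum_const, nsmul_eq_mul]
      _ ≤ A ^ s * (2 ^ (s * n) * ((19 / 20 : ℝ) ^ (D0 + 1)) ^ s) := by
          have h1 : (N'.card : ℝ) ≤ A ^ s := by
            refine le_trans ?_ hNc'
            exact_mod_cast Finset.card_filter_le _ _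
          have h2 : (2 : ℝ) ^ (s * n) * (19 / 20 : ℝ) ^ n
              ≤ 2 ^ (s * n) * ((19 / 20 : ℝ) ^ (D0 + 1)) ^ s :=
            mul_le_mul_of_nonneg_left h19 (by positivity)
          exact mul_le_mul h1 h2 (by positivity) (by positivity)
      _ = (A * (19 / 20 : ℝ) ^ (D0 + 1)) ^ s * 2 ^ (s * n) := by
          rw [mul_pow]; ring
      _ ≤ 1 / 4 * 2 ^ (s * n) := mul_le_mul_of_nonneg_right hpow (by positivity)
  have c2 : (B2.card : ℝ) ≤ 1 / 4 * 2 ^ (s * n) := by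
    have := hO n s hn hsn
    convert this
  have hcard : (Fintype.card (Fin n → Fin s → Bool) : ℝ) = 2 ^ (s * n) := by
    rw [Fintype.card_fun, Fintype.card_fun, Fintype.card_bool, Fintype.card_fin,
      Fintype.card_fin]
    push_cast
    rw [← pow_mul]
  obtain ⟨G, hG⟩ : ∃ G, G ∉ B1 ∪ B2 := by
    by_contra hcon
    push Not at hcon
    have h1 : B1 ∪ B2 = Finset.univ := Finset.eq_univ_iff_forall.mpr hcon
    have h2 : ((B1 ∪ B2).card : ℝ) ≤ B1.card + B2.card := by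
      exact_mod_cast Finset.card_union_le B1 B2
    rw [h1, Finset.card_univ, hcard] at h2
    have h3 : (0 : ℝ) < 2 ^ (s * n) := by positivity
    linarith
  rw [Finset.mem_union, not_or] at hG
  obtain ⟨hG1, hG2⟩ := hG
  have g1 : ∀ y ∈ N, 3 / 4 ≤ sq y → sq y ≤ 5 / 4 → (n : ℝ) / 10 ≤ ∑ i, |dt (G i) y| := by
    intro y hy h1 h2
    by_contra hcon
    push Not at hcon
    apply hG1
    rw [hB1, Finset.mem_biUnion]
    exact ⟨y, Finset.mem_filter.mpr ⟨hy, h1, h2⟩, Finset.mem_filter.mpr ⟨Finset.mem_univ _, hcon⟩⟩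
  have g2 : ∀ x : Fin s → ℝ, ∑ i, (dt (G i) x) ^ 2 ≤ 430 * n * sq x := by
    by_contra hcon
    exact hG2 (Finset.mem_filter.mpr ⟨Finset.mem_univ _, hcon⟩)
  -- unit vectors
  have unit : ∀ x : Fin s → ℝ, sq x = 1 → (n : ℝ) / 20 ≤ ∑ i, |dt (G i) x| := by
    intro x hx
    obtain ⟨y, hy, hxy⟩ := hNcov x hx.le
    have hxy' : sq (x - y) ≤ 1 / 250000 := by
      refine hxy.trans (le_of_eq ?_)
      norm_num
    obtain ⟨hy1, hy2⟩ := sq_near x y hx hxy'
    have h1 := g1 y hy hy1 hy2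
    have h2 : ∑ i, |dt (G i) (x - y)| ≤ 21 / 500 * n := by
      refine abs_le_of_sq_le_sq' ?_ (by positivity) |>.2
      have h3 : (∑ i, |dt (G i) (x - y)|) ^ 2 ≤ n * ∑ i, |dt (G i) (x - y)| ^ 2 := by
        have := sq_sum_le_card_mul_sum_sq (s := (Finset.univ : Finset (Fin n)))
          (f := fun i => |dt (G i) (x - y)|)
        rwa [Finset.card_univ, Fintype.card_fin] at this
      have h4 : ∑ i, |dt (G i) (x - y)| ^ 2 ≤ 430 * n * (1 / 250000) := by
        simp only [sq_abs]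
        exact (g2 (x - y)).trans (mul_le_mul_of_nonneg_left hxy' (by positivity))
      calc (∑ i, |dt (G i) (x - y)|) ^ 2 ≤ n * (430 * n * (1 / 250000)) :=
            h3.trans (mul_le_mul_of_nonneg_left h4 hn0.le)
        _ ≤ (21 / 500 * (n : ℝ)) ^ 2 := by
            have : (0 : ℝ) ≤ (n : ℝ) ^ 2 := by positivity
            nlinarith
    have h5 : ∑ i, |dt (G i) y| ≤ ∑ i, |dt (G i) x| + ∑ i, |dt (G i) (x - y)| := by
      rw [← Finset.sum_add_distrib]
      refine Finset.sum_le_sum (fun i _ => ?_)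
      rw [dt_sub]
      have : dt (G i) y = dt (G i) x - (dt (G i) x - dt (G i) y) := by ring
      calc |dt (G i) y| = |dt (G i) x - (dt (G i) x - dt (G i) y)| := by rw [← this]
        _ ≤ |dt (G i) x| + |dt (G i) x - dt (G i) y| := abs_sub _ _
    linarith
  have gen : ∀ x : Fin s → ℝ, (n : ℝ) / 20 * Real.sqrt (sq x) ≤ ∑ i, |dt (G i) x| := by
    intro x
    rcases (sq_nonneg' x).eq_or_lt with h0 | h0
    · rw [← h0, Real.sqrt_zero, mul_zero]
      exact Finset.sum_nonneg (fun _ _ => abs_nonneg _)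
    · set r := Real.sqrt (sq x) with hr
      have hr0 : 0 < r := Real.sqrt_pos.mpr h0
      have hrr : r ^ 2 = sq x := Real.sq_sqrt h0.le
      have h1 : sq (r⁻¹ • x) = 1 := by
        rw [sq_smul, ← hrr]
        field_simp
      have h2 := unit _ h1
      have h3 : ∑ i, |dt (G i) (r⁻¹ • x)| = r⁻¹ * ∑ i, |dt (G i) x| := by
        rw [Finset.mul_sum]
        refine Finset.sum_congr rfl (fun i _ => ?_)
        rw [dt_smul, abs_mul, abs_of_pos (inv_pos.mpr hr0)]
      rw [h3] at h2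
      calc (n : ℝ) / 20 * r ≤ (r⁻¹ * ∑ i, |dt (G i) x|) * r :=
            mul_le_mul_of_nonneg_right h2 hr0.le
        _ = ∑ i, |dt (G i) x| := by field_simp
  have hdt : ∀ (i : Fin n) (x : Fin s → ℝ), ∑ a, sg (G i a) * x a = dt (G i) x :=
    fun _ _ => rfl
  refine ⟨fun i a => sg (G i a), ?_, ?_⟩
  · intro x hx
    have h1 := gen x
    have h2 : ∑ i, |dt (G i) x| = 0 := by
      refine Finset.sum_eq_zero (fun i _ => ?_)
      rw [← hdt i x, hx i, abs_zero]
    rw [h2] at h1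
    have h3 : Real.sqrt (sq x) ≤ 0 := by
      by_contra hcon
      push Not at hcon
      have : 0 < (n : ℝ) / 20 * Real.sqrt (sq x) := by positivity
      linarith
    have h4 : sq x ≤ 0 := by
      have := Real.sqrt_eq_zero'.mp (le_antisymm h3 (Real.sqrt_nonneg _))
      exact this
    have h5 : sq x = 0 := le_antisymm h4 (sq_nonneg' x)
    funext a
    have h6 := (Finset.sum_eq_zero_iff_of_nonneg (fun a _ => sq_nonneg (x a))).mp h5 a
      (Finset.mem_univ a)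
    simpa using h6
  · intro x
    simp only [hdt]
    have h1 := gen x
    have h2 := g2 x
    have h3 : ((n : ℝ) / 20 * Real.sqrt (sq x)) ^ 2 ≤ (∑ i, |dt (G i) x|) ^ 2 :=
      pow_le_pow_left₀ (by positivity) h1 2
    rw [mul_pow, Real.sq_sqrt (sq_nonneg' x)] at h3
    calc (n : ℝ) * ∑ i, (dt (G i) x) ^ 2 ≤ n * (430 * n * sq x) :=
          mul_le_mul_of_nonneg_left h2 hn0.le
      _ = 172000 * (((n : ℝ) / 20) ^ 2 * sq x) := by ring
      _ ≤ 172000 * (∑ i, |dt (G i) x|) ^ 2 := by linarith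

end Pool.Agent.MP3e8c7ak
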