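import Pool.Agent.Work.MP_3e8c7a_k.Interface

set_option autoImplicit false

namespace Pool.Agent.MP3e8c7ak

theorem LOW (hR : Stmt_ROW) : Stmt_LOW := by
  classical
  intro n s x h1 h2
  have hrow := hR s x h1 h2
  set B := Finset.univ.filter (fun G : Fin n → Fin s → Bool =>
    ∑ i, |dt (G i) x| < (n : ℝ) / 10) with hB
  have hprod : ∑ G : Fin n → Fin s → Bool, ∏ i, Real.exp (-((2 / 5) * |dt (G i) x|)) =
      (∑ g : Fin s → Bool, Real.exp (-((2 / 5) * |dt g x|))) ^ n := by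
    rw [Finset.sum_pow']
    simp
  have hle : (∑ g : Fin s → Bool, Real.exp (-((2 / 5) * |dt g x|))) ^ n ≤
      (2 ^ s * (9 / 10)) ^ n :=
    pow_le_pow_left₀ (Finset.sum_nonneg fun g _ => (Real.exp_pos _).le) hrow n
  have hbad : (B.card : ℝ) * (Real.exp (-(1 / 25))) ^ n ≤
      ∑ G : Fin n → Fin s → Bool, ∏ i, Real.exp (-((2 / 5) * |dt (G i) x|)) := by
    calc (B.card : ℝ) * (Real.exp (-(1 / 25))) ^ n
        = ∑ G ∈ B, (Real.exp (-(1 / 25))) ^ n := by simp
      _ ≤ ∑ G ∈ B, ∏ i, Real.exp (-((2 / 5) * |dt (G i) x|)) := by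
        refine Finset.sum_le_sum fun G hG => ?_
        rw [← Real.exp_sum, ← Real.exp_nat_mul]
        apply Real.exp_le_exp.mpr
        rw [Finset.sum_neg_distrib, ← Finset.mul_sum]
        have := (Finset.mem_filter.mp hG).2
        nlinarith
      _ ≤ _ := Finset.sum_le_sum_of_subset_of_nonneg (Finset.subset_univ _)
        fun G _ _ => Finset.prod_nonneg fun i _ => (Real.exp_pos _).le
  rw [hprod] at hbad
  have h3 := hbad.trans hle
  have hexp : (24 / 25 : ℝ) ≤ Real.exp (-(1 / 25)) := by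
    have := Real.add_one_le_exp (-(1 / 25 : ℝ))
    linarith
  have h4 : (B.card : ℝ) * (24 / 25 : ℝ) ^ n ≤ (2 ^ s * (9 / 10)) ^ n := by
    refine le_trans ?_ h3
    exact mul_le_mul_of_nonneg_left (pow_le_pow_left₀ (by norm_num) hexp n) (Nat.cast_nonneg _)
  have h5 : (B.card : ℝ) ≤ (2 ^ s * (9 / 10)) ^ n / (24 / 25 : ℝ) ^ n :=
    (le_div_iff₀ (by positivity)).mpr h4
  refine h5.trans ?_
  rw [← div_pow, pow_mul, ← mul_pow]
  apply pow_le_pow_left₀ (by positivity)
  have hp : (0 : ℝ) < 2 ^ s := by positivity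
  rw [div_le_iff₀ (by norm_num)]
  nlinarith

end Pool.Agent.MP3e8c7ak
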