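import Pool.Agent.Work.MP_3e8c7a_k.Interface

/-! # MGF: few sign matrices have a large bilinear form -/

namespace Pool.Agent.MP3e8c7ak

open Module

theorem MGF_row (s : ℕ) (x : Fin s → ℝ) (c : ℝ) :
    ∑ g : Fin s → Bool, Real.exp (c * dt g x) ≤ 2 ^ s * Real.exp (c ^ 2 / 2 * sq x) := by
  have h1 : ∀ g : Fin s → Bool, Real.exp (c * dt g x) =
      ∏ a, Real.exp (c * (sg (g a) * x a)) := by
    intro g
    rw [dt, Finset.mul_sum, Real.exp_sum]
  simp_rw [h1]
  have h2 : ∑ g : Fin s → Bool, ∏ a, Real.exp (c * (sg (g a) * x a)) =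
      ∏ a, ∑ b : Bool, Real.exp (c * (sg b * x a)) := by
    rw [Finset.prod_univ_sum, Fintype.piFinset_univ]
  rw [h2]
  have h3 : ∀ a : Fin s, ∑ b : Bool, Real.exp (c * (sg b * x a)) ≤
      2 * Real.exp ((c * x a) ^ 2 / 2) := by
    intro a
    rw [Fintype.sum_bool]
    have h4 : Real.exp (c * (sg true * x a)) + Real.exp (c * (sg false * x a)) =
        2 * Real.cosh (c * x a) := by
      rw [Real.cosh_eq]
      have e1 : c * (sg true * x a) = c * x a := by simp [sg]
      have e2 : c * (sg false * x a) = -(c * x a) := by simp [sg]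
      rw [e1, e2]
      ring
    rw [h4]
    exact mul_le_mul_of_nonneg_left (Real.cosh_le_exp_half_sq _) (by norm_num)
  refine (Finset.prod_le_prod (fun a _ => Finset.sum_nonneg fun b _ => (Real.exp_pos _).le)
    (fun a _ => h3 a)).trans (le_of_eq ?_)
  rw [Finset.prod_mul_distrib, Finset.prod_const, Finset.card_univ, Fintype.card_fin,
    ← Real.exp_sum, sq, Finset.mul_sum]
  congr 2
  refine Finset.sum_congr rfl fun a _ => ?_
  ring

theorem MGF_all (n s : ℕ) (x : Fin s → ℝ) (z : Fin n → ℝ) (l : ℝ) :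
    ∑ G : Fin n → Fin s → Bool, Real.exp (l * ∑ i, z i * dt (G i) x) ≤
      2 ^ (s * n) * Real.exp (l ^ 2 / 2 * (sq z * sq x)) := by
  have h1 : ∀ G : Fin n → Fin s → Bool, Real.exp (l * ∑ i, z i * dt (G i) x) =
      ∏ i, Real.exp (l * z i * dt (G i) x) := by
    intro G
    rw [Finset.mul_sum, Real.exp_sum]
    refine Finset.prod_congr rfl fun i _ => ?_
    rw [mul_assoc]
  simp_rw [h1]
  have h2 : ∑ G : Fin n → Fin s → Bool, ∏ i, Real.exp (l * z i * dt (G i) x) =
      ∏ i, ∑ g : Fin s → Bool, Real.exp (l * z i * dt g x) := by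
    rw [Finset.prod_univ_sum, Fintype.piFinset_univ]
  rw [h2]
  refine (Finset.prod_le_prod (fun a _ => Finset.sum_nonneg fun b _ => (Real.exp_pos _).le)
    (fun i _ => MGF_row s x (l * z i))).trans (le_of_eq ?_)
  rw [Finset.prod_mul_distrib, Finset.prod_const, Finset.card_univ, Fintype.card_fin,
    ← Real.exp_sum, ← pow_mul]
  congr 2
  have hz : sq z = ∑ i, z i ^ 2 := rfl
  rw [hz, Finset.sum_mul, Finset.mul_sum]
  refine Finset.sum_congr rfl fun a _ => ?_
  ring

theorem MGF : Stmt_MGF := by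
  intro n s x z t ht hx hz
  have h1 := MGF_all n s x z (t / 4)
  set B := Finset.univ.filter (fun G : Fin n → Fin s → Bool =>
    t ≤ ∑ i, z i * dt (G i) x) with hB
  have h2 : (B.card : ℝ) * Real.exp (t / 4 * t) ≤
      ∑ G : Fin n → Fin s → Bool, Real.exp (t / 4 * ∑ i, z i * dt (G i) x) := by
    rw [← nsmul_eq_mul]
    refine (Finset.card_nsmul_le_sum B
      (fun G => Real.exp (t / 4 * ∑ i, z i * dt (G i) x)) _ fun G hG => ?_).trans
      (Finset.sum_le_sum_of_subset_of_nonneg (Finset.subset_univ B)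
        fun _ _ _ => (Real.exp_pos _).le)
    rw [hB, Finset.mem_filter] at hG
    exact Real.exp_le_exp.mpr (mul_le_mul_of_nonneg_left hG.2 (by positivity))
  have h3 : (t / 4) ^ 2 / 2 * (sq z * sq x) ≤ t ^ 2 / 8 := by
    have hx0 : 0 ≤ sq x := Finset.sum_nonneg fun _ _ => sq_nonneg _
    have hz0 : 0 ≤ sq z := Finset.sum_nonneg fun _ _ => sq_nonneg _
    have h4 : sq z * sq x ≤ 2 * 2 := mul_le_mul hz hx hx0 (by norm_num)
    calc (t / 4) ^ 2 / 2 * (sq z * sq x) ≤ (t / 4) ^ 2 / 2 * (2 * 2) :=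
          mul_le_mul_of_nonneg_left h4 (by positivity)
      _ = t ^ 2 / 8 := by ring
  have h5 : (B.card : ℝ) * Real.exp (t / 4 * t) ≤ 2 ^ (s * n) * Real.exp (t ^ 2 / 8) :=
    h2.trans (h1.trans (mul_le_mul_of_nonneg_left (Real.exp_le_exp.mpr h3) (by positivity)))
  have h6 : Real.exp (t ^ 2 / 8) = Real.exp (-(t ^ 2 / 8)) * Real.exp (t / 4 * t) := by
    rw [← Real.exp_add]
    congr 1
    ring
  rw [h6, ← mul_assoc] at h5
  exact le_of_mul_le_mul_right h5 (Real.exp_pos _)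

end Pool.Agent.MP3e8c7ak
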