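import Pool.Agent.Work.MP_3e8c7a_k.Interface

/-! # Block NET: a net of the Euclidean unit ball made of lattice points -/

set_option autoImplicit false

namespace Pool.Agent.MP3e8c7ak

theorem NET_geo (M : ℕ) :
    ∑ t ∈ Finset.Icc (-(M : ℤ)) (M : ℤ), (1 / 2 : ℝ) ^ t.natAbs = 3 - 2 * (1 / 2) ^ M := by
  induction M with
  | zero => simp; norm_num
  | succ M ih =>
    have h : Finset.Icc (-((M + 1 : ℕ) : ℤ)) ((M + 1 : ℕ) : ℤ)
        = insert (-((M + 1 : ℕ) : ℤ)) (insert ((M + 1 : ℕ) : ℤ)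
          (Finset.Icc (-(M : ℤ)) (M : ℤ))) := by
      ext t
      simp only [Finset.mem_Icc, Finset.mem_insert]
      push_cast
      omega
    have h1 : (-((M + 1 : ℕ) : ℤ)).natAbs = M + 1 := by omega
    have h2 : (((M + 1 : ℕ) : ℤ)).natAbs = M + 1 := by omega
    rw [h, Finset.sum_insert, Finset.sum_insert, ih, h1, h2]
    · ring
    · simp only [Finset.mem_Icc]; push_cast; omega
    · simp only [Finset.mem_Icc, Finset.mem_insert]; push_cast; omega

theorem NET_sum (M : ℕ) :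
    ∑ t ∈ Finset.Icc (-(M : ℤ)) (M : ℤ), (1 / 2 : ℝ) ^ (t.natAbs ^ 2) ≤ 3 := by
  have h1 : ∑ t ∈ Finset.Icc (-(M : ℤ)) (M : ℤ), (1 / 2 : ℝ) ^ (t.natAbs ^ 2)
      ≤ ∑ t ∈ Finset.Icc (-(M : ℤ)) (M : ℤ), (1 / 2 : ℝ) ^ t.natAbs := by
    refine Finset.sum_le_sum fun t _ => ?_
    apply pow_le_pow_of_le_one (by norm_num) (by norm_num)
    exact Nat.le_self_pow (by norm_num) _
  rw [NET_geo] at h1
  have h2 : (0 : ℝ) ≤ 2 * (1 / 2) ^ M := by positivity
  linarith

/-- **Block NET.** -/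
theorem NET : Stmt_NET := by
  intro h d hh
  rcases Nat.eq_zero_or_pos d with hd | hd
  · subst hd
    refine ⟨{0}, by simp, fun x _ => ⟨0, by simp, ?_⟩⟩
    simp only [sq, Finset.univ_eq_empty, Finset.sum_empty]
    positivity
  set M : ℕ := (h + 1) ^ 2 * d with hM
  set Z : Finset (Fin d → ℤ) := (Fintype.piFinset (fun _ : Fin d =>
    Finset.Icc (-(M : ℤ)) (M : ℤ))).filter (fun z => ∑ a, (z a).natAbs ^ 2 ≤ M) with hZ
  have hdpos : (0 : ℝ) < d := by exact_mod_cast hd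
  have hhpos : (0 : ℝ) < h := by exact_mod_cast hh
  have hsd : 0 < Real.sqrt d := Real.sqrt_pos.2 hdpos
  have hsd2 : Real.sqrt d ^ 2 = d := Real.sq_sqrt hdpos.le
  have hcard : (Z.card : ℝ) ≤ 3 ^ d * 2 ^ M := by
    have h1 : (Z.card : ℝ) * (1 / 2) ^ M
        ≤ ∑ z ∈ Z, ∏ a, (1 / 2 : ℝ) ^ ((z a).natAbs ^ 2) := by
      rw [← nsmul_eq_mul, ← Finset.sum_const]
      refine Finset.sum_le_sum fun z hz => ?_
      rw [Finset.prod_pow_eq_pow_sum]
      apply pow_le_pow_of_le_one (by norm_num) (by norm_num)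
      exact (Finset.mem_filter.1 hz).2
    have h2 : ∑ z ∈ Z, ∏ a, (1 / 2 : ℝ) ^ ((z a).natAbs ^ 2)
        ≤ ∑ z ∈ Fintype.piFinset (fun _ : Fin d => Finset.Icc (-(M : ℤ)) (M : ℤ)),
          ∏ a, (1 / 2 : ℝ) ^ ((z a).natAbs ^ 2) :=
      Finset.sum_le_sum_of_subset_of_nonneg (Finset.filter_subset _ _)
        (fun z _ _ => by positivity)
    have h3 : ∑ z ∈ Fintype.piFinset (fun _ : Fin d => Finset.Icc (-(M : ℤ)) (M : ℤ)),
          ∏ a, (1 / 2 : ℝ) ^ ((z a).natAbs ^ 2)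
        = (∑ t ∈ Finset.Icc (-(M : ℤ)) (M : ℤ), (1 / 2 : ℝ) ^ (t.natAbs ^ 2)) ^ d := by
      rw [← Finset.prod_univ_sum (fun _ : Fin d => Finset.Icc (-(M : ℤ)) (M : ℤ))
        (fun _ t => (1 / 2 : ℝ) ^ (t.natAbs ^ 2))]
      simp
    have h4 : (∑ t ∈ Finset.Icc (-(M : ℤ)) (M : ℤ), (1 / 2 : ℝ) ^ (t.natAbs ^ 2)) ^ d
        ≤ 3 ^ d :=
      pow_le_pow_left₀ (Finset.sum_nonneg fun _ _ => by positivity) (NET_sum M) d
    have h5 : (Z.card : ℝ) * (1 / 2) ^ M ≤ 3 ^ d := by linarith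
    have h6 : (Z.card : ℝ) = (Z.card : ℝ) * (1 / 2) ^ M * 2 ^ M := by
      rw [mul_assoc, ← mul_pow]; norm_num
    rw [h6]
    exact mul_le_mul_of_nonneg_right h5 (by positivity)
  classical
  refine ⟨Z.image (fun z a => (z a : ℝ) / (h * Real.sqrt d)), ?_, ?_⟩
  · calc ((Z.image (fun z a => (z a : ℝ) / (h * Real.sqrt d))).card : ℝ) ≤ Z.card := by
          exact_mod_cast Finset.card_image_le
      _ ≤ 3 ^ d * 2 ^ M := hcard
      _ = (3 * 2 ^ ((h + 1) ^ 2)) ^ d := by rw [mul_pow, ← pow_mul]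
  · intro x hx
    set z : Fin d → ℤ := fun a => round (x a * h * Real.sqrt d) with hz
    have hround : ∀ a, |x a * h * Real.sqrt d - z a| ≤ 1 / 2 := fun a => abs_sub_round _
    have hsum : ∑ a, (z a : ℝ) ^ 2 ≤ M := by
      have h1 : ∀ a, (z a : ℝ) ^ 2 ≤ (h ^ 2 * d + h / 2 * d) * x a ^ 2 + (h / 2 + 1 / 4) := by
        intro a
        have h2 := abs_le.1 (hround a)
        have h3 : |(z a : ℝ)| ≤ |x a| * h * Real.sqrt d + 1 / 2 := by
          have h4 : |(z a : ℝ)| ≤ |x a * h * Real.sqrt d| + |x a * h * Real.sqrt d - z a| := by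
            have := abs_sub_abs_le_abs_sub (z a : ℝ) (x a * h * Real.sqrt d)
            rw [abs_sub_comm] at this
            linarith
          have h5 : |x a * h * Real.sqrt d| = |x a| * h * Real.sqrt d := by
            rw [abs_mul, abs_mul, abs_of_pos hhpos, abs_of_pos hsd]
          linarith [hround a]
        have h6 : (z a : ℝ) ^ 2 ≤ (|x a| * h * Real.sqrt d + 1 / 2) ^ 2 := by
          rw [← sq_abs (z a : ℝ)]
          exact pow_le_pow_left₀ (abs_nonneg _) h3 2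
        have h7 : (|x a| * h * Real.sqrt d + 1 / 2) ^ 2
            = h ^ 2 * (Real.sqrt d ^ 2) * |x a| ^ 2 + h * (|x a| * Real.sqrt d) + 1 / 4 := by
          ring
        have h8 : |x a| * Real.sqrt d ≤ (d * x a ^ 2 + 1) / 2 := by
          have h9 := sq_nonneg (|x a| * Real.sqrt d - 1)
          have h10 : (|x a| * Real.sqrt d - 1) ^ 2
              = |x a| ^ 2 * (Real.sqrt d ^ 2) - 2 * (|x a| * Real.sqrt d) + 1 := by ring
          rw [h10, sq_abs, hsd2] at h9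
          linarith
        rw [h7, hsd2, sq_abs] at h6
        nlinarith [mul_le_mul_of_nonneg_left h8 hhpos.le]
      have h2 : ∑ a, (z a : ℝ) ^ 2
          ≤ ∑ a, ((h ^ 2 * d + h / 2 * d) * x a ^ 2 + (h / 2 + 1 / 4) : ℝ) :=
        Finset.sum_le_sum fun a _ => h1 a
      rw [Finset.sum_add_distrib, ← Finset.mul_sum, Finset.sum_const, Finset.card_univ,
        Fintype.card_fin, nsmul_eq_mul] at h2
      have h3 : ∑ a, x a ^ 2 ≤ 1 := hx
      have h4 : ((h : ℝ) ^ 2 * d + h / 2 * d) * ∑ a, x a ^ 2 ≤ ((h : ℝ) ^ 2 * d + h / 2 * d) * 1 :=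
        mul_le_mul_of_nonneg_left h3 (by positivity)
      have h5 : (M : ℝ) = ((h : ℝ) + 1) ^ 2 * d := by rw [hM]; push_cast; ring
      rw [h5]
      nlinarith
    have hsumN : ∑ a, (z a).natAbs ^ 2 ≤ M := by
      have h1 : ((∑ a, (z a).natAbs ^ 2 : ℕ) : ℝ) ≤ (M : ℝ) := by
        push_cast
        calc ∑ a, (((z a).natAbs : ℕ) : ℝ) ^ 2 = ∑ a, (z a : ℝ) ^ 2 := by
              refine Finset.sum_congr rfl fun a _ => ?_
              rw [Nat.cast_natAbs, Int.cast_abs, sq_abs]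
          _ ≤ M := hsum
      exact_mod_cast h1
    refine ⟨fun a => (z a : ℝ) / (h * Real.sqrt d), ?_, ?_⟩
    · apply Finset.mem_image_of_mem (fun (z : Fin d → ℤ) a => (z a : ℝ) / (h * Real.sqrt d))
      rw [hZ, Finset.mem_filter, Fintype.mem_piFinset]
      refine ⟨fun a => ?_, hsumN⟩
      have h1 : (z a).natAbs ^ 2 ≤ M :=
        (Finset.single_le_sum (f := fun a => (z a).natAbs ^ 2) (fun _ _ => Nat.zero_le _)
          (Finset.mem_univ a)).trans hsumN
      have h2 : (z a).natAbs ≤ M := (Nat.le_self_pow (by norm_num) _).trans h1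
      rw [Finset.mem_Icc]
      omega
    · have h1 : ∀ a, (x a - (z a : ℝ) / (h * Real.sqrt d)) ^ 2 ≤ 1 / (4 * (h : ℝ) ^ 2) / d := by
        intro a
        have h2 : x a - (z a : ℝ) / (h * Real.sqrt d)
            = (x a * h * Real.sqrt d - z a) / (h * Real.sqrt d) := by
          field_simp
        rw [h2, div_pow, mul_pow, hsd2, div_div, div_le_div_iff₀ (by positivity) (by positivity)]
        have h3 : (x a * h * Real.sqrt d - z a) ^ 2 ≤ 1 / 4 := by
          rw [← sq_abs]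
          calc |x a * h * Real.sqrt d - z a| ^ 2 ≤ (1 / 2) ^ 2 :=
                pow_le_pow_left₀ (abs_nonneg _) (hround a) 2
            _ = 1 / 4 := by norm_num
        have h4 : (0 : ℝ) < (h : ℝ) ^ 2 * d := by positivity
        nlinarith [mul_le_mul_of_nonneg_right h3 h4.le]
      have h2 : sq (x - fun a => (z a : ℝ) / (h * Real.sqrt d))
          ≤ ∑ _a : Fin d, (1 / (4 * (h : ℝ) ^ 2) / d) :=
        Finset.sum_le_sum fun a _ => h1 a
      rw [Finset.sum_const, Finset.card_univ, Fintype.card_fin, nsmul_eq_mul,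
        mul_div_cancel₀ _ hdpos.ne'] at h2
      exact h2

end Pool.Agent.MP3e8c7ak
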