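import Pool.Agent.Work.MP_3e8c7a_k.Interface

set_option autoImplicit false

namespace Pool.Agent.MP3e8c7ak

/-- The Euclidean norm. -/
noncomputable def OPN_nr {d : ℕ} (x : Fin d → ℝ) : ℝ := Real.sqrt (sq x)

theorem OPN_sq_nonneg {d : ℕ} (x : Fin d → ℝ) : 0 ≤ sq x :=
  Finset.sum_nonneg (fun _ _ => sq_nonneg _)

theorem OPN_nr_nonneg {d : ℕ} (x : Fin d → ℝ) : 0 ≤ OPN_nr x := Real.sqrt_nonneg _

theorem OPN_nr_sq {d : ℕ} (x : Fin d → ℝ) : OPN_nr x ^ 2 = sq x :=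
  Real.sq_sqrt (OPN_sq_nonneg x)

theorem OPN_nr_norm {d : ℕ} (x : Fin d → ℝ) :
    OPN_nr x = ‖(WithLp.toLp 2 x : EuclideanSpace ℝ (Fin d))‖ := by
  rw [EuclideanSpace.norm_eq]
  unfold OPN_nr sq
  congr 1
  refine Finset.sum_congr rfl (fun a _ => ?_)
  rw [Real.norm_eq_abs, sq_abs]

theorem OPN_nr_add {d : ℕ} (x y : Fin d → ℝ) : OPN_nr (x + y) ≤ OPN_nr x + OPN_nr y := by
  rw [OPN_nr_norm, OPN_nr_norm, OPN_nr_norm, WithLp.toLp_add]
  exact norm_add_le _ _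

theorem OPN_nr_smul {d : ℕ} (c : ℝ) (hc : 0 ≤ c) (x : Fin d → ℝ) :
    OPN_nr (c • x) = c * OPN_nr x := by
  rw [OPN_nr_norm, OPN_nr_norm, WithLp.toLp_smul, norm_smul, Real.norm_eq_abs, abs_of_nonneg hc]

theorem OPN_nr_sub_comm {d : ℕ} (x y : Fin d → ℝ) : OPN_nr (x - y) = OPN_nr (y - x) := by
  unfold OPN_nr sq
  congr 1
  refine Finset.sum_congr rfl (fun a _ => ?_)
  simp only [Pi.sub_apply]
  ring

theorem OPN_cs {d : ℕ} (x y : Fin d → ℝ) : ∑ i, x i * y i ≤ OPN_nr x * OPN_nr y :=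
  Real.sum_mul_le_sqrt_mul_sqrt _ _ _

/-- The image of `x`. -/
def OPN_im {n s : ℕ} (G : Fin n → Fin s → Bool) (x : Fin s → ℝ) : Fin n → ℝ :=
  fun i => dt (G i) x

theorem OPN_im_add {n s : ℕ} (G : Fin n → Fin s → Bool) (x y : Fin s → ℝ) :
    OPN_im G (x + y) = OPN_im G x + OPN_im G y := by
  funext i
  simp only [OPN_im, dt, Pi.add_apply]
  rw [← Finset.sum_add_distrib]
  exact Finset.sum_congr rfl (fun a _ => by ring)

theorem OPN_im_smul {n s : ℕ} (G : Fin n → Fin s → Bool) (c : ℝ) (x : Fin s → ℝ) :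
    OPN_im G (c • x) = c • OPN_im G x := by
  funext i
  simp only [OPN_im, dt, Pi.smul_apply, smul_eq_mul]
  rw [Finset.mul_sum]
  exact Finset.sum_congr rfl (fun a _ => by ring)

theorem OPN_sg_sq (c : Bool) : sg c ^ 2 = 1 := by
  cases c <;> simp [sg]

theorem OPN_crude {n s : ℕ} (G : Fin n → Fin s → Bool) (x : Fin s → ℝ) :
    OPN_nr (OPN_im G x) ≤ Real.sqrt (n * s) * OPN_nr x := by
  unfold OPN_nr
  rw [← Real.sqrt_mul (by positivity)]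
  apply Real.sqrt_le_sqrt
  have h1 : ∀ i : Fin n, (OPN_im G x i) ^ 2 ≤ s * sq x := by
    intro i
    have h2 := Finset.sum_mul_sq_le_sq_mul_sq (Finset.univ : Finset (Fin s))
      (fun a => sg (G i a)) x
    have h3 : ∑ a : Fin s, sg (G i a) ^ 2 = s := by
      rw [Finset.sum_congr rfl (fun a _ => OPN_sg_sq (G i a))]
      simp
    rw [h3] at h2
    exact h2
  calc sq (OPN_im G x) = ∑ i, (OPN_im G x i) ^ 2 := rfl
    _ ≤ ∑ _i : Fin n, (s : ℝ) * sq x := Finset.sum_le_sum (fun i _ => h1 i)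
    _ = n * s * sq x := by
      rw [Finset.sum_const, Finset.card_univ, Fintype.card_fin, nsmul_eq_mul]
      ring

theorem OPN_near {d : ℕ} (x y : Fin d → ℝ) (hx : sq x ≤ 1) (h : sq (x - y) ≤ 1 / 16) :
    OPN_nr (x - y) ≤ 1 / 4 ∧ sq y ≤ 2 := by
  have h1 : OPN_nr (x - y) ≤ 1 / 4 := by
    unfold OPN_nr
    rw [show (1 / 4 : ℝ) = Real.sqrt (1 / 16) by
      rw [show (1 / 16 : ℝ) = (1 / 4) ^ 2 by norm_num, Real.sqrt_sq (by norm_num)]]
    exact Real.sqrt_le_sqrt h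
  have h2 : OPN_nr x ≤ 1 := by
    unfold OPN_nr
    rw [Real.sqrt_le_left (by norm_num)]
    linarith
  refine ⟨h1, ?_⟩
  have h3 : OPN_nr y ≤ 5 / 4 := by
    have h4 := OPN_nr_add x (y - x)
    rw [add_sub_cancel, OPN_nr_sub_comm y x] at h4
    linarith
  rw [← OPN_nr_sq y]
  have h5 := OPN_nr_nonneg y
  nlinarith

theorem OPN_step1 {n s : ℕ} (G : Fin n → Fin s → Bool) (t : ℝ) (ht : 0 ≤ t)
    (Ns : Finset (Fin s → ℝ)) (Nn : Finset (Fin n → ℝ))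
    (hNn : ∀ x : Fin n → ℝ, sq x ≤ 1 → ∃ y ∈ Nn, sq (x - y) ≤ 1 / 16)
    (hG : ∀ x' ∈ Ns, sq x' ≤ 2 → ∀ z' ∈ Nn, sq z' ≤ 2 → ∑ i, z' i * dt (G i) x' < t)
    (x' : Fin s → ℝ) (hx' : x' ∈ Ns) (hx2 : sq x' ≤ 2) :
    OPN_nr (OPN_im G x') ≤ 4 / 3 * t := by
  by_cases h0 : OPN_nr (OPN_im G x') = 0
  · rw [h0]
    positivity
  have hpos : 0 < OPN_nr (OPN_im G x') := lt_of_le_of_ne (OPN_nr_nonneg _) (Ne.symm h0)
  set y := OPN_im G x' with hy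
  have hz1 : OPN_nr ((OPN_nr y)⁻¹ • y) = 1 := by
    rw [OPN_nr_smul _ (by positivity), inv_mul_cancel₀ h0]
  have hz2 : sq ((OPN_nr y)⁻¹ • y) ≤ 1 := by
    rw [← OPN_nr_sq, hz1]
    norm_num
  obtain ⟨z', hz', hzz⟩ := hNn _ hz2
  obtain ⟨hn1, hn2⟩ := OPN_near _ _ hz2 hzz
  have h1 := hG x' hx' hx2 z' hz' hn2
  have h2 := OPN_cs ((OPN_nr y)⁻¹ • y - z') y
  have h3 : ∑ i, ((OPN_nr y)⁻¹ • y - z') i * y i = OPN_nr y - ∑ i, z' i * dt (G i) x' := by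
    have h4 : ∀ i, ((OPN_nr y)⁻¹ • y - z') i * y i =
        (OPN_nr y)⁻¹ * (y i) ^ 2 - z' i * dt (G i) x' := by
      intro i
      simp only [Pi.sub_apply, Pi.smul_apply, smul_eq_mul, hy, OPN_im]
      ring
    rw [Finset.sum_congr rfl (fun i _ => h4 i), Finset.sum_sub_distrib, ← Finset.mul_sum]
    have h5 : ∑ i, (y i) ^ 2 = OPN_nr y ^ 2 := (OPN_nr_sq y).symm
    rw [h5]
    field_simp
  rw [h3] at h2
  have h6 : OPN_nr ((OPN_nr y)⁻¹ • y - z') * OPN_nr y ≤ 1 / 4 * OPN_nr y :=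
    mul_le_mul_of_nonneg_right hn1 hpos.le
  linarith

theorem OPN_hom {n s : ℕ} (G : Fin n → Fin s → Bool) (K : ℝ)
    (h : ∀ x : Fin s → ℝ, sq x ≤ 1 → OPN_nr (OPN_im G x) ≤ K) (x : Fin s → ℝ) :
    OPN_nr (OPN_im G x) ≤ K * OPN_nr x := by
  by_cases h0 : OPN_nr x = 0
  · have h1 := OPN_crude G x
    rw [h0, mul_zero] at h1
    rw [h0, mul_zero]
    exact h1
  have hpos : 0 < OPN_nr x := lt_of_le_of_ne (OPN_nr_nonneg _) (Ne.symm h0)
  have h1 := h ((OPN_nr x)⁻¹ • x) (by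
    rw [← OPN_nr_sq, OPN_nr_smul _ (by positivity), inv_mul_cancel₀ h0]
    norm_num)
  rw [OPN_im_smul, OPN_nr_smul _ (by positivity)] at h1
  rw [inv_mul_le_iff₀ hpos] at h1
  linarith

theorem OPN_step2 {n s : ℕ} (G : Fin n → Fin s → Bool) (t : ℝ) (ht : 0 ≤ t)
    (Ns : Finset (Fin s → ℝ)) (Nn : Finset (Fin n → ℝ))
    (hNs : ∀ x : Fin s → ℝ, sq x ≤ 1 → ∃ y ∈ Ns, sq (x - y) ≤ 1 / 16)
    (hNn : ∀ x : Fin n → ℝ, sq x ≤ 1 → ∃ y ∈ Nn, sq (x - y) ≤ 1 / 16)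
    (hG : ∀ x' ∈ Ns, sq x' ≤ 2 → ∀ z' ∈ Nn, sq z' ≤ 2 → ∑ i, z' i * dt (G i) x' < t)
    (j : ℕ) : ∀ x : Fin s → ℝ, OPN_nr (OPN_im G x) ≤
      (16 / 9 * t + Real.sqrt (n * s) * (1 / 4) ^ j) * OPN_nr x := by
  induction j with
  | zero =>
    intro x
    have h1 := OPN_crude G x
    have h2 : 0 ≤ 16 / 9 * t * OPN_nr x := by
      have := OPN_nr_nonneg x
      positivity
    rw [pow_zero, mul_one, add_mul]
    linarith
  | succ j ih =>
    have hK : 0 ≤ 16 / 9 * t + Real.sqrt (n * s) * (1 / 4) ^ j := by positivity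
    apply OPN_hom
    intro x hx
    obtain ⟨x', hx', hxx⟩ := hNs x hx
    obtain ⟨hn1, hn2⟩ := OPN_near _ _ hx hxx
    have h1 := OPN_step1 G t ht Ns Nn hNn hG x' hx' hn2
    have h2 := ih (x - x')
    have h3 : OPN_nr (OPN_im G x) ≤ OPN_nr (OPN_im G x') + OPN_nr (OPN_im G (x - x')) := by
      have h4 := OPN_nr_add (OPN_im G x') (OPN_im G (x - x'))
      rw [← OPN_im_add, add_sub_cancel] at h4
      exact h4
    have h5 : (16 / 9 * t + Real.sqrt (n * s) * (1 / 4) ^ j) * OPN_nr (x - x') ≤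
        (16 / 9 * t + Real.sqrt (n * s) * (1 / 4) ^ j) * (1 / 4) :=
      mul_le_mul_of_nonneg_left hn1 hK
    rw [pow_succ]
    linarith

theorem OPN_det {n s : ℕ} (G : Fin n → Fin s → Bool) (Ns : Finset (Fin s → ℝ))
    (Nn : Finset (Fin n → ℝ))
    (hNs : ∀ x : Fin s → ℝ, sq x ≤ 1 → ∃ y ∈ Ns, sq (x - y) ≤ 1 / 16)
    (hNn : ∀ x : Fin n → ℝ, sq x ≤ 1 → ∃ y ∈ Nn, sq (x - y) ≤ 1 / 16)
    (hG : ∀ x' ∈ Ns, sq x' ≤ 2 → ∀ z' ∈ Nn, sq z' ≤ 2 →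
      ∑ i, z' i * dt (G i) x' < Real.sqrt (136 * n)) (x : Fin s → ℝ) :
    ∑ i, (dt (G i) x) ^ 2 ≤ 430 * n * sq x := by
  have ht : 0 ≤ Real.sqrt (136 * n) := Real.sqrt_nonneg _
  have h1 := OPN_step2 G _ ht Ns Nn hNs hNn hG
  have h2 : Filter.Tendsto (fun j : ℕ => (16 / 9 * Real.sqrt (136 * n) +
      Real.sqrt (n * s) * (1 / 4) ^ j) * OPN_nr x) Filter.atTop
      (nhds ((16 / 9 * Real.sqrt (136 * n) + Real.sqrt (n * s) * 0) * OPN_nr x)) := by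
    apply Filter.Tendsto.mul_const
    apply Filter.Tendsto.const_add
    apply Filter.Tendsto.const_mul
    exact tendsto_pow_atTop_nhds_zero_of_lt_one (by norm_num) (by norm_num)
  have h3 : OPN_nr (OPN_im G x) ≤
      (16 / 9 * Real.sqrt (136 * n) + Real.sqrt (n * s) * 0) * OPN_nr x :=
    ge_of_tendsto' h2 (fun j => h1 j x)
  rw [mul_zero, add_zero] at h3
  have h4 : sq (OPN_im G x) ≤ (16 / 9 * Real.sqrt (136 * n) * OPN_nr x) ^ 2 := by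
    rw [← OPN_nr_sq]
    exact pow_le_pow_left₀ (OPN_nr_nonneg _) h3 2
  have h5 : (16 / 9 * Real.sqrt (136 * n) * OPN_nr x) ^ 2 = 34816 / 81 * n * sq x := by
    rw [mul_pow, mul_pow, Real.sq_sqrt (by positivity), OPN_nr_sq]
    ring
  rw [h5] at h4
  have h6 : sq (OPN_im G x) = ∑ i, (dt (G i) x) ^ 2 := rfl
  rw [h6] at h4
  have h7 : 0 ≤ (n : ℝ) * sq x := mul_nonneg (Nat.cast_nonneg _) (OPN_sq_nonneg x)
  nlinarith

theorem OPN_num1 : (1536 : ℝ) * 1536 * Real.exp (-17) ≤ 1 / 4 := by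
  have h1 : (2.7 : ℝ) ≤ Real.exp 1 := by
    have := Real.exp_one_gt_d9
    linarith
  have h2 : (2.7 : ℝ) ^ 17 ≤ Real.exp 17 := by
    have h3 : Real.exp 17 = Real.exp 1 ^ 17 := by
      rw [← Real.exp_nat_mul]
      norm_num
    rw [h3]
    exact pow_le_pow_left₀ (by norm_num) h1 17
  rw [Real.exp_neg]
  have h4 : (4 : ℝ) * (1536 * 1536) ≤ Real.exp 17 := by
    refine le_trans ?_ h2
    norm_num
  have h5 : 0 < Real.exp 17 := Real.exp_pos _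
  rw [← div_eq_mul_inv, div_le_iff₀ h5]
  linarith

theorem OPN_num2 (n s : ℕ) (hn : 1 ≤ n) (hs : s ≤ n) :
    (1536 : ℝ) ^ s * ((1536 : ℝ) ^ n * Real.exp (-(17 * n))) ≤ 1 / 4 := by
  have h1 : (1536 : ℝ) ^ s ≤ 1536 ^ n := pow_le_pow_right₀ (by norm_num) hs
  have h2 : Real.exp (-(17 * (n : ℝ))) = Real.exp (-17) ^ n := by
    rw [← Real.exp_nat_mul]
    congr 1
    ring
  have h3 : 0 ≤ (1536 : ℝ) ^ n * Real.exp (-(17 * n)) := by positivity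
  calc (1536 : ℝ) ^ s * ((1536 : ℝ) ^ n * Real.exp (-(17 * n)))
      ≤ (1536 : ℝ) ^ n * ((1536 : ℝ) ^ n * Real.exp (-(17 * n))) :=
        mul_le_mul_of_nonneg_right h1 h3
    _ = (1536 * 1536 * Real.exp (-17)) ^ n := by
        rw [h2, mul_pow, mul_pow, mul_assoc]
    _ ≤ (1 / 4) ^ n := pow_le_pow_left₀ (by positivity) OPN_num1 n
    _ ≤ (1 / 4) ^ 1 := pow_le_pow_of_le_one (by norm_num) (by norm_num) hn
    _ = 1 / 4 := pow_one _

theorem OPN_net (h2 : Stmt_NET) (d : ℕ) : ∃ N : Finset (Fin d → ℝ),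
    (N.card : ℝ) ≤ 1536 ^ d ∧ ∀ x : Fin d → ℝ, sq x ≤ 1 → ∃ y ∈ N, sq (x - y) ≤ 1 / 16 := by
  obtain ⟨N, hN1, hN2⟩ := h2 2 d (by norm_num)
  refine ⟨N, ?_, ?_⟩
  · refine le_trans hN1 (le_of_eq ?_)
    norm_num
  · intro x hx
    obtain ⟨y, hy, hxy⟩ := hN2 x hx
    refine ⟨y, hy, le_trans hxy (le_of_eq ?_)⟩
    norm_num

theorem OPN (h1 : Stmt_MGF) (h2 : Stmt_NET) : Stmt_OPN := by
  intro n s hn hs
  classical
  obtain ⟨Ns, hNs1, hNs2⟩ := OPN_net h2 s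
  obtain ⟨Nn, hNn1, hNn2⟩ := OPN_net h2 n
  set Ns' := Ns.filter (fun x => sq x ≤ 2) with hNs'
  set Nn' := Nn.filter (fun x => sq x ≤ 2) with hNn'
  have hcs : (Ns'.card : ℝ) ≤ 1536 ^ s :=
    le_trans (by exact_mod_cast Finset.card_filter_le _ _) hNs1
  have hcn : (Nn'.card : ℝ) ≤ 1536 ^ n :=
    le_trans (by exact_mod_cast Finset.card_filter_le _ _) hNn1
  have hsub : (Finset.univ.filter (fun G : Fin n → Fin s → Bool =>
      ¬ ∀ x : Fin s → ℝ, ∑ i, (dt (G i) x) ^ 2 ≤ 430 * n * sq x)) ⊆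
      Ns'.biUnion (fun x' => Nn'.biUnion (fun z' =>
        Finset.univ.filter (fun G : Fin n → Fin s → Bool =>
          Real.sqrt (136 * n) ≤ ∑ i, z' i * dt (G i) x'))) := by
    intro G hG
    rw [Finset.mem_filter] at hG
    by_contra hcon
    apply hG.2
    apply OPN_det G Ns Nn hNs2 hNn2
    intro x' hx' hx2 z' hz' hz2
    by_contra hlt
    apply hcon
    rw [Finset.mem_biUnion]
    refine ⟨x', Finset.mem_filter.mpr ⟨hx', hx2⟩, ?_⟩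
    rw [Finset.mem_biUnion]
    refine ⟨z', Finset.mem_filter.mpr ⟨hz', hz2⟩, ?_⟩
    rw [Finset.mem_filter]
    exact ⟨Finset.mem_univ _, not_lt.mp hlt⟩
  have hE : Real.exp (-(Real.sqrt (136 * n) ^ 2 / 8)) = Real.exp (-(17 * n)) := by
    rw [Real.sq_sqrt (by positivity)]
    congr 1
    ring
  have hone : ∀ x' ∈ Ns', ∀ z' ∈ Nn', ((Finset.univ.filter (fun G : Fin n → Fin s → Bool =>
      Real.sqrt (136 * n) ≤ ∑ i, z' i * dt (G i) x')).card : ℝ) ≤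
      2 ^ (s * n) * Real.exp (-(17 * n)) := by
    intro x' hx' z' hz'
    have h3 := h1 n s x' z' (Real.sqrt (136 * n)) (Real.sqrt_nonneg _)
      (Finset.mem_filter.mp hx').2 (Finset.mem_filter.mp hz').2
    rw [hE] at h3
    exact h3
  have hcard : ((Ns'.biUnion (fun x' => Nn'.biUnion (fun z' =>
        Finset.univ.filter (fun G : Fin n → Fin s → Bool =>
          Real.sqrt (136 * n) ≤ ∑ i, z' i * dt (G i) x')))).card : ℝ) ≤
      Ns'.card * (Nn'.card * (2 ^ (s * n) * Real.exp (-(17 * n)))) := by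
    refine le_trans (Nat.cast_le.mpr Finset.card_biUnion_le) ?_
    rw [Nat.cast_sum]
    refine le_trans (Finset.sum_le_card_nsmul _ _
      (Nn'.card * (2 ^ (s * n) * Real.exp (-(17 * n)))) (fun x' hx' => ?_)) ?_
    · refine le_trans (Nat.cast_le.mpr Finset.card_biUnion_le) ?_
      rw [Nat.cast_sum]
      refine le_trans (Finset.sum_le_card_nsmul _ _
        (2 ^ (s * n) * Real.exp (-(17 * n))) (fun z' hz' => hone x' hx' z' hz')) ?_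
      rw [nsmul_eq_mul]
    · rw [nsmul_eq_mul]
  have hfin : (Ns'.card : ℝ) * (Nn'.card * (2 ^ (s * n) * Real.exp (-(17 * n)))) ≤
      1 / 4 * 2 ^ (s * n) := by
    have h3 : (0 : ℝ) ≤ 2 ^ (s * n) * Real.exp (-(17 * n)) := by positivity
    calc (Ns'.card : ℝ) * (Nn'.card * (2 ^ (s * n) * Real.exp (-(17 * n))))
        ≤ 1536 ^ s * (1536 ^ n * (2 ^ (s * n) * Real.exp (-(17 * n)))) := by
          apply mul_le_mul hcs _ (by positivity) (by positivity)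
          exact mul_le_mul_of_nonneg_right hcn h3
      _ = (1536 ^ s * (1536 ^ n * Real.exp (-(17 * n)))) * 2 ^ (s * n) := by ring
      _ ≤ 1 / 4 * 2 ^ (s * n) :=
          mul_le_mul_of_nonneg_right (OPN_num2 n s hn hs) (by positivity)
  refine le_trans ?_ (le_trans hcard hfin)
  refine Nat.cast_le.mpr (le_trans (le_of_eq ?_) (Finset.card_le_card hsub))
  congr 1

end Pool.Agent.MP3e8c7ak
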