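import Pool.Agent.Work.MP_3e8c7a_k.Interface

set_option autoImplicit false

namespace Pool.Agent.MP3e8c7ak

theorem ROW_exp {t : ℝ} (ht : 0 ≤ t) : Real.exp (-t) ≤ 1 - t + t ^ 2 / 2 := by
  have h := Real.quadratic_le_exp_of_nonneg ht
  have hpos : 0 < Real.exp t := Real.exp_pos t
  rw [Real.exp_neg, inv_le_comm₀ hpos (by nlinarith [sq_nonneg (t - 1)])]
  refine le_trans ?_ h
  rw [inv_le_iff_one_le_mul₀ (by nlinarith [sq_nonneg (t - 1)])]
  nlinarith [sq_nonneg (t ^ 2), sq_nonneg t]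

theorem ROW (hM : Stmt_MOM) : Stmt_ROW := by
  intro s x h1 h2
  obtain ⟨hm2, hm4⟩ := hM s x
  have hpt : ∀ g : Fin s → Bool, Real.exp (-((2 / 5) * |dt g x|)) ≤
      1 - (2 / 5) * ((dt g x) ^ 2 - (4 / 27) * (dt g x) ^ 4) + (2 / 25) * (dt g x) ^ 2 := by
    intro g
    set w := |dt g x| with hw
    have hw0 : 0 ≤ w := abs_nonneg _
    have hw2 : (dt g x) ^ 2 = w ^ 2 := (sq_abs _).symm
    have hw4 : (dt g x) ^ 4 = w ^ 4 := by
      have : (dt g x) ^ 4 = ((dt g x) ^ 2) ^ 2 := by ring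
      rw [this, hw2]; ring
    rw [hw2, hw4]
    have h3 := ROW_exp (t := 2 / 5 * w) (by positivity)
    have h4 : w ^ 2 - 4 / 27 * w ^ 4 ≤ w := by
      have : 0 ≤ w * ((4 / 27) * (w + 3) * (w - 3 / 2) ^ 2) := by positivity
      nlinarith
    nlinarith
  have hsum : ∑ g : Fin s → Bool, Real.exp (-((2 / 5) * |dt g x|)) ≤
      ∑ g : Fin s → Bool, (1 - (2 / 5) * ((dt g x) ^ 2 - (4 / 27) * (dt g x) ^ 4)
        + (2 / 25) * (dt g x) ^ 2) := Finset.sum_le_sum fun g _ => hpt g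
  have heq : ∑ g : Fin s → Bool, (1 - (2 / 5) * ((dt g x) ^ 2 - (4 / 27) * (dt g x) ^ 4)
        + (2 / 25) * (dt g x) ^ 2) =
      2 ^ s - (2 / 5) * (∑ g : Fin s → Bool, (dt g x) ^ 2
        - (4 / 27) * ∑ g : Fin s → Bool, (dt g x) ^ 4)
        + (2 / 25) * ∑ g : Fin s → Bool, (dt g x) ^ 2 := by
    rw [Finset.sum_add_distrib, Finset.sum_sub_distrib, ← Finset.mul_sum, ← Finset.mul_sum,
      Finset.sum_sub_distrib, ← Finset.mul_sum]
    simp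
  rw [heq, hm2] at hsum
  refine hsum.trans ?_
  have hp : (0 : ℝ) < 2 ^ s := by positivity
  have hS : sq x - 4 / 9 * (sq x) ^ 2 ≥ 1 / 2 := by nlinarith
  have h5 : 2 ^ s * (sq x - 4 / 9 * (sq x) ^ 2) ≥ 2 ^ s * (1 / 2) :=
    mul_le_mul_of_nonneg_left hS hp.le
  have h6 : 2 ^ s * sq x ≤ 2 ^ s * (5 / 4) := mul_le_mul_of_nonneg_left h2 hp.le
  nlinarith

end Pool.Agent.MP3e8c7ak
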