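import Pool.Agent.Work.MP_3e8c7a_k.Final

/-!
# MP_3e8c7a_an: the theorems for convex bodies
-/

namespace Pool.Agent.MP3e8c7ak

open Module MP3e8c7a

lemma ceil_facts {α : ℝ} (hα : 0 < α) (hα1 : α < 1) {n : ℕ} (hn : 0 < n) :
    1 ≤ ⌈α * n⌉₊ ∧ ⌈α * n⌉₊ ≤ n ∧ n ≤ ⌈1 / α⌉₊ * ⌈α * n⌉₊ := by
  have hn0 : (0 : ℝ) < n := by exact_mod_cast hn
  refine ⟨Nat.ceil_pos.2 (by positivity), Nat.ceil_le.2 (by nlinarith), ?_⟩
  have h1 : α * n ≤ ⌈α * n⌉₊ := Nat.le_ceil _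
  have h2 : 1 / α ≤ ⌈1 / α⌉₊ := Nat.le_ceil _
  have h3 : (n : ℝ) ≤ (⌈1 / α⌉₊ : ℝ) * (⌈α * n⌉₊ : ℝ) := by
    calc (n : ℝ) = 1 / α * (α * n) := by field_simp
      _ ≤ 1 / α * ⌈α * n⌉₊ := mul_le_mul_of_nonneg_left h1 (by positivity)
      _ ≤ (⌈1 / α⌉₊ : ℝ) * (⌈α * n⌉₊ : ℝ) :=
        mul_le_mul_of_nonneg_right h2 (Nat.cast_nonneg _)
  exact_mod_cast h3

/-- One body is a linear image of the cube, all proportions. -/
theorem cube_dist (α b M : ℝ) (hα : 0 < α) (hα1 : α < 1) (hM : 1 ≤ M) : ∃ C : ℝ, 1 ≤ C ∧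
    ∀ n : ℕ, 0 < n → ∀ K L : Set (Fin n → ℝ), IsBody K → IsBody L →
      SectionsClose ⌈α * n⌉₊ b K L → (CubeLike M K ∨ CubeLike M L) →
      dBM K L ≤ ENNReal.ofReal C := by
  have hb : 1 ≤ |b| + 1 := by linarith [abs_nonneg b]
  obtain ⟨c, hc, hI⟩ := cube_good (M * (|b| + 1)) (by nlinarith) ⌈1 / α⌉₊
  have hMc : 1 ≤ M * c := by nlinarith
  refine ⟨M * c, hMc, ?_⟩
  intro n hn K L hK hL hS hcube
  obtain ⟨hk1, hkn, hnJ⟩ := ceil_facts hα hα1 hn
  have hg := hI ⌈α * n⌉₊ n hk1 hkn hnJ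
  obtain ⟨p, hp, hKp⟩ := hK.exists_seminorm
  obtain ⟨r, hr, hLr⟩ := hL.exists_seminorm
  have H : Hyp (|b| + 1) ⌈α * n⌉₊ p r := hS.hyp hp hr hKp hLr
  have key : ∀ p r : Seminorm ℝ (Fin n → ℝ), Def r → Hyp (|b| + 1) ⌈α * n⌉₊ p r →
      Iso M p (normSeminorm ℝ (Fin n → ℝ)) → Iso (M * c) p r := by
    intro p r hr H hT
    obtain ⟨T, hT⟩ := hT
    have h1 := good_apply hb hM hg hr H (T.symm : (Fin n → ℝ) →ₗ[ℝ] (Fin n → ℝ))
      T.symm.injective (fun a => by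
        have := (hT (T.symm a)).1
        rw [T.apply_symm_apply] at this
        exact this) (fun a => by
        have := (hT (T.symm a)).2
        rw [T.apply_symm_apply] at this
        exact this)
    rcases h1 with ⟨S, hS⟩ | h1
    · refine ⟨(T.trans S).trans T.symm, fun x => ?_⟩
      have h2 := hS (T x)
      have h3 : (p.comp (T.symm : (Fin n → ℝ) →ₗ[ℝ] (Fin n → ℝ))) (T x) = p x := by
        show p (T.symm (T x)) = p x
        rw [T.symm_apply_apply]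
      rw [h3] at h2
      exact h2
    · linarith
  rcases hcube with hcube | hcube
  · exact (key p r hr H (hcube.data hM hp hKp)).dBM_le hMc hKp hLr
  · exact ((key r p hp (H.symm (by linarith)) (hcube.data hM hr hLr)).symm
      (by linarith)).dBM_le hMc hKp hLr

/-- One body is a linear image of a cube times a body of dimension `k`, proportions up to `1/2`. -/
theorem cubeTimes_half (α b M : ℝ) (hα : 0 < α) (hα2 : α ≤ 1 / 2) (hM : 1 ≤ M) : ∃ C : ℝ,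
    1 ≤ C ∧ ∀ n : ℕ, 0 < n → ∀ K L : Set (Fin n → ℝ), IsBody K → IsBody L →
      SectionsClose ⌈α * n⌉₊ b K L →
      (CubeTimes M ⌈α * n⌉₊ K ∨ CubeTimes M ⌈α * n⌉₊ L) →
      dBM K L ≤ ENNReal.ofReal C := by
  have hb : 1 ≤ |b| + 1 := by linarith [abs_nonneg b]
  obtain ⟨c, hc, hI⟩ := cube_good (M * (|b| + 1)) (by nlinarith) ⌈1 / α⌉₊
  let c' : ℝ := M * c + 25 * (|b| + 1)
  have hMc : 1 ≤ M * c := by nlinarith
  have hc' : 1 ≤ c' := by
    show 1 ≤ M * c + 25 * (|b| + 1)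
    linarith
  have hc'M : 1 ≤ c' * M := by nlinarith
  refine ⟨stc (|b| + 1) (c' * M) c', one_le_stc hb hc'M hc', ?_⟩
  intro n hn K L hK hL hS hcube
  have hn0 : (0 : ℝ) < n := by exact_mod_cast hn
  obtain ⟨hk1, hkn, hnJ⟩ := ceil_facts hα (by linarith) hn
  have h2k : 2 * ⌈α * n⌉₊ ≤ n + 1 := by
    have h1 : ((⌈α * n⌉₊ - 1 : ℕ) : ℝ) < α * n := Nat.lt_ceil.1 (by omega)
    have h2 : ((⌈α * n⌉₊ - 1 : ℕ) : ℝ) * 2 < n := by nlinarith
    have h3 : (⌈α * n⌉₊ - 1) * 2 < n := by exact_mod_cast h2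
    omega
  obtain ⟨p, hp, hKp⟩ := hK.exists_seminorm
  obtain ⟨r, hr, hLr⟩ := hL.exists_seminorm
  have H : Hyp (|b| + 1) ⌈α * n⌉₊ p r := hS.hyp hp hr hKp hLr
  generalize ⌈α * n⌉₊ = k at *
  have hfr : finrank ℝ (Fin n → ℝ) = Fintype.card (Fin (n - k)) + k := by
    rw [Module.finrank_fintype_fun_eq_card, Fintype.card_fin, Fintype.card_fin]; omega
  have key : ∀ p r : Seminorm ℝ (Fin n → ℝ), Def p → Def r → Hyp (|b| + 1) k p r →
      (∃ (i : (Fin (n - k) → ℝ) →ₗ[ℝ] (Fin n → ℝ)) (φ : (Fin n → ℝ) →ₗ[ℝ] (Fin (n - k) → ℝ)),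
        (∀ a, φ (i a) = a) ∧ (∀ a, p (i a) ≤ ‖a‖) ∧ ∀ x, ‖φ x‖ ≤ M * p x) →
      Iso (stc (|b| + 1) (c' * M) c') p r := by
    rintro p r hp hr H ⟨i, φ, hφ, q1, q2⟩
    have hi : Function.Injective i := Function.LeftInverse.injective hφ
    have hA : Iso c' (p.comp i) (r.comp i) := by
      by_cases hm : k ≤ n - k
      · have hg := hI k (n - k) hk1 hm (by omega)
        rcases good_apply hb hM hg hr H i hi q1 (fun a => by
          have := q2 (i a)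
          rwa [hφ] at this) with h | h
        · refine h.mono ?_
          show M * c ≤ M * c + 25 * (|b| + 1)
          linarith
        · linarith
      · obtain ⟨k', rfl⟩ : ∃ k', k = k' + 1 := ⟨k - 1, by omega⟩
        have H0 : Hyp (25 * (|b| + 1)) k' p r := H.pred hb hp (by
          rw [Module.finrank_fintype_fun_eq_card, Fintype.card_fin]; exact hkn)
        have h := H0.inj i hi (by
          rw [Module.finrank_fintype_fun_eq_card, Fintype.card_fin]; omega)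
        refine h.mono ?_
        show 25 * (|b| + 1) ≤ M * c + 25 * (|b| + 1)
        linarith
    obtain ⟨_, _, _, _, _, _, h⟩ := cube_step hb hM hc' H i φ hφ q1 q2 hfr hA
    exact h
  have hst : 1 ≤ stc (|b| + 1) (c' * M) c' := one_le_stc hb hc'M hc'
  rcases hcube with hcube | hcube
  · exact (key p r hp hr H (hcube.data hM hp hKp)).dBM_le hst hKp hLr
  · exact ((key r p hr hp (H.symm (by linarith)) (hcube.data hM hr hLr)).symm
      (by linarith)).dBM_le hst hKp hLr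

end Pool.Agent.MP3e8c7ak
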