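import Pool.Agent.Work.MP_3e8c7a_k.Op

/-!
# MP_3e8c7a_an: climbing in steps of small proportion
-/

namespace Pool.Agent.MP3e8c7ak

open Module MP3e8c7a

section calculus

variable {V W U V' W' : Type*} [AddCommGroup V] [Module ℝ V] [AddCommGroup W] [Module ℝ W]
  [AddCommGroup U] [Module ℝ U] [AddCommGroup V'] [Module ℝ V'] [AddCommGroup W'] [Module ℝ W']

/-- Isomorphic with constant `K ^ m`. -/
def R (K : ℝ) (m : ℕ) (p : Seminorm ℝ V) (r : Seminorm ℝ W) : Prop := Iso (K ^ m) p r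

variable {K : ℝ} {m l : ℕ} {p : Seminorm ℝ V} {r : Seminorm ℝ W} {s : Seminorm ℝ U}
  {p' : Seminorm ℝ V'} {r' : Seminorm ℝ W'}

lemma R.symm (hK : 1 ≤ K) (h : R K m p r) : R K m r p := Iso.symm h (by positivity)

lemma R.trans (hK : 1 ≤ K) (h1 : R K m p r) (h2 : R K l r s) : R K (m + l) p s := by
  have := Iso.trans h1 h2 (by positivity)
  unfold R
  rwa [pow_add]

lemma R.mono (hK : 1 ≤ K) (hml : m ≤ l) (h : R K m p r) : R K l p r :=
  Iso.mono h (pow_le_pow_right₀ hK hml)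

lemma R.ds (h1 : R K m p p') (h2 : R K m r r') : R K m (ds p r) (MP3e8c7a.ds p' r') :=
  Iso.ds h1 h2

lemma R.of_iso (hK : 1 ≤ K) {c : ℝ} (hc : c ≤ K) (h : Iso c p r) : R K 1 p r := by
  unfold R
  rw [pow_one]
  exact h.mono hc

lemma R.refl (p : Seminorm ℝ V) : R K 0 p p := by
  unfold R
  rw [pow_zero]
  exact Iso.refl p

lemma ds_comm (p : Seminorm ℝ V) (r : Seminorm ℝ W) : R K 0 (MP3e8c7a.ds p r)
    (MP3e8c7a.ds r p) := by
  unfold R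
  rw [pow_zero]
  refine ⟨LinearEquiv.prodComm ℝ V W, fun x => ?_⟩
  have : MP3e8c7a.ds r p (LinearEquiv.prodComm ℝ V W x) = MP3e8c7a.ds p r x := by
    show r x.2 + p x.1 = p x.1 + r x.2
    ring
  rw [this, one_mul]
  exact ⟨le_refl _, le_refl _⟩

lemma ds_assoc (p : Seminorm ℝ V) (r : Seminorm ℝ W) (s : Seminorm ℝ U) :
    R K 0 (MP3e8c7a.ds (MP3e8c7a.ds p r) s) (MP3e8c7a.ds p (MP3e8c7a.ds r s)) := by
  unfold R
  rw [pow_zero]
  refine ⟨LinearEquiv.prodAssoc ℝ V W U, fun x => ?_⟩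
  have : MP3e8c7a.ds p (MP3e8c7a.ds r s) (LinearEquiv.prodAssoc ℝ V W U x) =
      MP3e8c7a.ds (MP3e8c7a.ds p r) s x := by
    show p x.1.1 + (r x.1.2 + s x.2) = (p x.1.1 + r x.1.2) + s x.2
    ring
  rw [this, one_mul]
  exact ⟨le_refl _, le_refl _⟩

end calculus

section index

/-- The sup norm on `ι → ℝ`. -/
noncomputable abbrev Nι (ι : Type) [Fintype ι] : Seminorm ℝ (ι → ℝ) := normSeminorm ℝ (ι → ℝ)

lemma norm_funCongr {ι κ : Type} [Fintype ι] [Fintype κ] (e : ι ≃ κ) (x : κ → ℝ) :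
    ‖LinearEquiv.funCongrLeft ℝ ℝ e x‖ = ‖x‖ := by
  apply le_antisymm
  · rw [pi_norm_le_iff_of_nonneg (norm_nonneg _)]
    intro l
    exact norm_le_pi_norm x (e l)
  · rw [pi_norm_le_iff_of_nonneg (norm_nonneg _)]
    intro l
    have h := norm_le_pi_norm (LinearEquiv.funCongrLeft ℝ ℝ e x) (e.symm l)
    have h2 : LinearEquiv.funCongrLeft ℝ ℝ e x (e.symm l) = x l := by
      show x (e (e.symm l)) = x l
      rw [e.apply_symm_apply]
    rwa [h2] at h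

lemma N_congr {K : ℝ} {ι κ : Type} [Fintype ι] [Fintype κ] (h : Fintype.card ι = Fintype.card κ) :
    R K 0 (Nι ι) (Nι κ) := by
  unfold R
  rw [pow_zero]
  have e : κ ≃ ι := (Fintype.equivOfCardEq h).symm
  refine ⟨LinearEquiv.funCongrLeft ℝ ℝ e, fun x => ?_⟩
  have : (Nι κ) (LinearEquiv.funCongrLeft ℝ ℝ e x) = (Nι ι) x := norm_funCongr e x
  rw [this, one_mul]
  exact ⟨le_refl _, le_refl _⟩

/-- Extension by zero to a sum. -/
def exl (β α : Type) : (β → ℝ) →ₗ[ℝ] (β ⊕ α → ℝ) where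
  toFun x := Sum.elim x 0
  map_add' x y := by funext l; rcases l with l | l <;> simp
  map_smul' c x := by funext l; rcases l with l | l <;> simp

/-- Restriction to the left summand. -/
def rsl (β α : Type) : (β ⊕ α → ℝ) →ₗ[ℝ] (β → ℝ) where
  toFun x := fun l => x (Sum.inl l)
  map_add' _ _ := rfl
  map_smul' _ _ := rfl

/-- Restriction to the right summand. -/
def rsr (β α : Type) : (β ⊕ α → ℝ) →ₗ[ℝ] (α → ℝ) where
  toFun x := fun l => x (Sum.inr l)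
  map_add' _ _ := rfl
  map_smul' _ _ := rfl

variable (β α γ δ : Type) [Fintype β] [Fintype α] [Fintype γ] [Fintype δ]

lemma rsl_exl (x : β → ℝ) : rsl β α (exl β α x) = x := rfl

lemma norm_exl (x : β → ℝ) : ‖exl β α x‖ = ‖x‖ := by
  apply le_antisymm
  · rw [pi_norm_le_iff_of_nonneg (norm_nonneg _)]
    rintro (l | l)
    · exact norm_le_pi_norm x l
    · show ‖(0 : ℝ)‖ ≤ ‖x‖
      rw [norm_zero]; exact norm_nonneg _
  · rw [pi_norm_le_iff_of_nonneg (norm_nonneg _)]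
    intro l
    exact norm_le_pi_norm (exl β α x) (Sum.inl l)

lemma norm_rsl_le (x : β ⊕ α → ℝ) : ‖rsl β α x‖ ≤ ‖x‖ := by
  rw [pi_norm_le_iff_of_nonneg (norm_nonneg _)]
  intro l
  exact norm_le_pi_norm x _

lemma norm_sub_exl (x : β ⊕ α → ℝ) : ‖x - exl β α (rsl β α x)‖ = ‖rsr β α x‖ := by
  apply le_antisymm
  · rw [pi_norm_le_iff_of_nonneg (norm_nonneg _)]
    rintro (l | l)
    · show ‖x (Sum.inl l) - x (Sum.inl l)‖ ≤ _
      rw [sub_self, norm_zero]; exact norm_nonneg _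
    · show ‖x (Sum.inr l) - 0‖ ≤ _
      rw [sub_zero]
      exact norm_le_pi_norm (rsr β α x) l
  · rw [pi_norm_le_iff_of_nonneg (norm_nonneg _)]
    intro l
    have := norm_le_pi_norm (x - exl β α (rsl β α x)) (Sum.inr l)
    have h2 : (x - exl β α (rsl β α x)) (Sum.inr l) = rsr β α x l := by
      show x (Sum.inr l) - 0 = x (Sum.inr l)
      rw [sub_zero]
    rwa [h2] at this

lemma exl_injective : Function.Injective (exl β α) :=
  Function.LeftInverse.injective (rsl_exl β α)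

/-- The sup norm of a sum is 2-equivalent to the direct sum. -/
lemma N_sum {K : ℝ} (hK : 2 ≤ K) : R K 1 (ds (Nι β) (Nι α)) (Nι (β ⊕ α)) := by
  have h : Iso (2 * 1) (ds (Nι β) (Nι α)) (Nι (β ⊕ α)) := by
    refine Iso.of_bounds (LinearEquiv.sumArrowLequivProdArrow β α ℝ ℝ).symm two_pos
      (fun x => ?_) (fun x => ?_)
    · show ‖x.1‖ + ‖x.2‖ ≤ 2 * ‖(LinearEquiv.sumArrowLequivProdArrow β α ℝ ℝ).symm x‖
      have h1 : ‖x.1‖ ≤ ‖(LinearEquiv.sumArrowLequivProdArrow β α ℝ ℝ).symm x‖ := by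
        rw [pi_norm_le_iff_of_nonneg (norm_nonneg _)]
        intro l
        exact norm_le_pi_norm ((LinearEquiv.sumArrowLequivProdArrow β α ℝ ℝ).symm x) (Sum.inl l)
      have h2 : ‖x.2‖ ≤ ‖(LinearEquiv.sumArrowLequivProdArrow β α ℝ ℝ).symm x‖ := by
        rw [pi_norm_le_iff_of_nonneg (norm_nonneg _)]
        intro l
        exact norm_le_pi_norm ((LinearEquiv.sumArrowLequivProdArrow β α ℝ ℝ).symm x) (Sum.inr l)
      linarith
    · show ‖(LinearEquiv.sumArrowLequivProdArrow β α ℝ ℝ).symm x‖ ≤ 1 * (‖x.1‖ + ‖x.2‖)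
      rw [one_mul, pi_norm_le_iff_of_nonneg (by positivity)]
      rintro (l | l)
      · have h1 := norm_le_pi_norm x.1 l
        have h2 := norm_nonneg x.2
        show ‖x.1 l‖ ≤ _
        linarith
      · have h1 := norm_le_pi_norm x.2 l
        have h2 := norm_nonneg x.1
        show ‖x.2 l‖ ≤ _
        linarith
  exact R.of_iso (by linarith) (by linarith) h

/-- Structure lemma: `r` splits off the block `β`, and the complement `Z` satisfies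
`Z ⊕ G ~ ℓ_∞^α ⊕ ℓ_∞^γ` for every isometric copy `G` of `ℓ_∞^γ` in the block. -/
lemma structure_lemma {b c : ℝ} (hb : 1 ≤ b) (hc : 1 ≤ c) {k : ℕ}
    {r : Seminorm ℝ (β ⊕ α → ℝ)} (H : Hyp b k (Nι (β ⊕ α)) r)
    (hβ : Iso c (Nι β) (r.comp (exl β α))) (g : (γ → ℝ) →ₗ[ℝ] (β → ℝ)) (hg : ∀ y, ‖g y‖ = ‖y‖)
    (hk : Fintype.card α + Fintype.card γ = k) {K : ℝ} (hK : 2 ≤ K) (hcK : 1 + 2 * c ≤ K)
    (htK : tc b c ≤ K) :
    ∃ ψ : (β ⊕ α → ℝ) →ₗ[ℝ] (β → ℝ),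
      R K 1 r (ds (r.comp (exl β α)) (r.comp (LinearMap.ker ψ).subtype)) ∧
      R K 2 (ds (r.comp (LinearMap.ker ψ).subtype) (r.comp (exl β α ∘ₗ g))) (Nι (α ⊕ γ)) := by
  have hK1 : 1 ≤ K := by linarith
  obtain ⟨ψ, hψ1, hψ2⟩ := exists_proj (by linarith) r (exl β α) (exl_injective β α)
    (hβ.symm (by linarith))
  have hP : ∀ x, (Nι (β ⊕ α)) (exl β α (rsl β α x)) ≤ c * (Nι (β ⊕ α)) x := fun x => by
    show ‖exl β α (rsl β α x)‖ ≤ c * ‖x‖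
    rw [norm_exl]
    have := norm_rsl_le β α x
    nlinarith [norm_nonneg x]
  have hker : finrank ℝ (LinearMap.ker ψ) = Fintype.card α := by
    have h3 := LinearMap.finrank_range_add_finrank_ker ψ
    have h4 : LinearMap.range ψ = ⊤ :=
      LinearMap.range_eq_top.2 (Function.RightInverse.surjective hψ1)
    rw [h4, finrank_top, Module.finrank_fintype_fun_eq_card,
      Module.finrank_fintype_fun_eq_card, Fintype.card_sum] at h3
    omega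
  have hginj : Function.Injective g := by
    rw [← LinearMap.ker_eq_bot, LinearMap.ker_eq_bot']
    intro y hy
    have := hg y
    rw [hy, norm_zero] at this
    exact norm_eq_zero.1 this.symm
  have tl := tilt hb hc H (exl β α ∘ₗ rsl β α) (exl β α ∘ₗ ψ)
    (fun x => by
      show exl β α (rsl β α (exl β α (ψ x))) = exl β α (ψ x)
      rw [rsl_exl])
    (fun x => by
      show exl β α (ψ (exl β α (rsl β α x))) = exl β α (rsl β α x)
      rw [hψ1])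
    hP hψ2 (LinearMap.ker ψ) (fun z hz => by
      have : ψ z = 0 := hz
      show exl β α (ψ z) = 0
      rw [this, map_zero]) (exl β α ∘ₗ g) ((exl_injective β α).comp hginj) (fun y => rfl)
    (by rw [hker, Module.finrank_fintype_fun_eq_card]; exact hk)
  refine ⟨ψ, R.of_iso hK1 hcK (splitR (exl β α) ψ hψ1 hψ2), ?_⟩
  have z1 : R K 0 ((Nι (β ⊕ α)).comp ((LinearMap.id - exl β α ∘ₗ rsl β α) ∘ₗ
      (LinearMap.ker ψ).subtype)) (Nι α) := by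
    let Ξ : LinearMap.ker ψ →ₗ[ℝ] (α → ℝ) := rsr β α ∘ₗ (LinearMap.ker ψ).subtype
    have hΞ : ∀ z : LinearMap.ker ψ, ‖(z : β ⊕ α → ℝ) - exl β α (rsl β α z)‖ = ‖Ξ z‖ :=
      fun z => norm_sub_exl β α z
    have hinj : Function.Injective Ξ := by
      rw [← LinearMap.ker_eq_bot, LinearMap.ker_eq_bot']
      intro z hz
      have h1 := hΞ z
      rw [hz, norm_zero] at h1
      have h3 : (z : β ⊕ α → ℝ) = exl β α (rsl β α z) := sub_eq_zero.1 (norm_eq_zero.1 h1)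
      have h4 : ψ (z : β ⊕ α → ℝ) = 0 := z.2
      rw [h3, hψ1] at h4
      apply Subtype.ext
      rw [h3, h4, map_zero]
      rfl
    let Ξe : LinearMap.ker ψ ≃ₗ[ℝ] (α → ℝ) := LinearMap.linearEquivOfInjective Ξ hinj (by
      rw [hker, Module.finrank_fintype_fun_eq_card])
    have hΞe : ∀ z, Ξe z = Ξ z := fun z => by simp [Ξe]
    unfold R
    rw [pow_zero]
    refine ⟨Ξe, fun z => ?_⟩
    have h5 : ((Nι (β ⊕ α)).comp ((LinearMap.id - exl β α ∘ₗ rsl β α) ∘ₗ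
      (LinearMap.ker ψ).subtype)) z = (Nι α) (Ξe z) := by
      show ‖(z : β ⊕ α → ℝ) - exl β α (rsl β α z)‖ = ‖Ξe z‖
      rw [hΞe, hΞ]
    rw [h5, one_mul]
    exact ⟨le_refl _, le_refl _⟩
  have z2 : R K 0 ((Nι (β ⊕ α)).comp (exl β α ∘ₗ g)) (Nι γ) := by
    unfold R
    rw [pow_zero]
    refine ⟨LinearEquiv.refl ℝ _, fun y => ?_⟩
    have h5 : ((Nι (β ⊕ α)).comp (exl β α ∘ₗ g)) y = (Nι γ) y := by
      show ‖exl β α (g y)‖ = ‖y‖
      rw [norm_exl, hg]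
    rw [h5, one_mul]
    exact ⟨le_refl _, le_refl _⟩
  have t1 : R K 1 _ _ := R.of_iso hK1 htK tl
  exact ((t1.trans hK1 (z1.ds z2)).trans hK1 (N_sum α γ hK)).mono hK1 (by omega)

end index

section climb

/-- Every norm on `ι → ℝ` that is `b`-close to the sup norm on `k`-dimensional subspaces is
`c`-isomorphic to the sup norm. -/
def Good (b : ℝ) (k : ℕ) (c : ℝ) (ι : Type) [Fintype ι] : Prop :=
  ∀ r : Seminorm ℝ (ι → ℝ), Def r → Hyp b k (Nι ι) r → Iso c (Nι ι) r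

lemma Good.mono {b : ℝ} {k : ℕ} {c d : ℝ} (hcd : c ≤ d) {ι : Type} [Fintype ι]
    (h : Good b k c ι) : Good b k d ι := fun r hr H => (h r hr H).mono hcd

lemma Good.congr {b : ℝ} {k : ℕ} {c : ℝ} {ι κ : Type} [Fintype ι] [Fintype κ]
    (h : Good b k c ι) (hcard : Fintype.card ι = Fintype.card κ) : Good b k c κ := by
  have e : ι ≃ κ := Fintype.equivOfCardEq hcard
  intro r hr H
  let E : (κ → ℝ) ≃ₗ[ℝ] (ι → ℝ) := LinearEquiv.funCongrLeft ℝ ℝ e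
  have hE : ∀ x, ‖E x‖ = ‖x‖ := norm_funCongr e
  have hE' : ∀ y, ‖E.symm y‖ = ‖y‖ := fun y => by
    have := hE (E.symm y)
    rw [E.apply_symm_apply] at this
    exact this.symm
  have hN : (Nι κ).comp (E.symm : (ι → ℝ) →ₗ[ℝ] (κ → ℝ)) = Nι ι := by
    ext y; exact hE' y
  have h1 : Hyp b k (Nι ι) (r.comp (E.symm : (ι → ℝ) →ₗ[ℝ] (κ → ℝ))) := by
    rw [← hN]; exact H.comp _ E.symm.injective
  obtain ⟨T, hT⟩ := h _ (hr.comp _ E.symm.injective) h1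
  refine ⟨(E.trans T).trans E.symm, fun x => ?_⟩
  have h2 := hT (E x)
  have h3 : (Nι ι) (E x) = (Nι κ) x := hE x
  rw [h3] at h2
  exact h2

variable (γ δ β α : Type) [Fintype γ] [Fintype δ] [Fintype β] [Fintype α]

/-- The embedding of the coordinates `(γ ⊕ δ) ⊕ α` into `((γ ⊕ δ) ⊕ β) ⊕ α`. -/
def jemb (β₁ β α : Type) : (β₁ ⊕ α → ℝ) →ₗ[ℝ] ((β₁ ⊕ β) ⊕ α → ℝ) where
  toFun x := Sum.elim (Sum.elim (fun l => x (Sum.inl l)) 0) (fun l => x (Sum.inr l))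
  map_add' x y := by
    funext l; rcases l with (l | l) | l <;> simp
  map_smul' c x := by
    funext l; rcases l with (l | l) | l <;> simp

lemma norm_jemb (β₁ β α : Type) [Fintype β₁] [Fintype β] [Fintype α] (x : β₁ ⊕ α → ℝ) :
    ‖jemb β₁ β α x‖ = ‖x‖ := by
  apply le_antisymm
  · rw [pi_norm_le_iff_of_nonneg (norm_nonneg _)]
    rintro ((l | l) | l)
    · exact norm_le_pi_norm x (Sum.inl l)
    · show ‖(0 : ℝ)‖ ≤ ‖x‖
      rw [norm_zero]; exact norm_nonneg _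
    · exact norm_le_pi_norm x (Sum.inr l)
  · rw [pi_norm_le_iff_of_nonneg (norm_nonneg _)]
    rintro (l | l)
    · exact norm_le_pi_norm (jemb β₁ β α x) (Sum.inl (Sum.inl l))
    · exact norm_le_pi_norm (jemb β₁ β α x) (Sum.inr l)

lemma jemb_exl (β₁ β α : Type) (x : β₁ → ℝ) :
    jemb β₁ β α (exl β₁ α x) = exl (β₁ ⊕ β) α (exl β₁ β x) := by
  funext l
  rcases l with (l | l) | l <;> rfl

/-- **One step of the climb.** -/
theorem climb_step (b c : ℝ) (hb : 1 ≤ b) (hc : 1 ≤ c) : ∃ C : ℝ, 1 ≤ C ∧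
    ∀ (γ δ β α : Type) [Fintype γ] [Fintype δ] [Fintype β] [Fintype α] (k : ℕ),
      Fintype.card γ + Fintype.card δ = k → Fintype.card α = Fintype.card δ →
      Good b k c ((γ ⊕ δ) ⊕ β) → Good b k c ((γ ⊕ δ) ⊕ α) →
      Good b k C (((γ ⊕ δ) ⊕ β) ⊕ α) := by
  have htb : 1 ≤ tc b b := one_le_tc hb hb
  have htc : 1 ≤ tc b c := one_le_tc hb hc
  let K : ℝ := 3 + 2 * c + 2 * b + tc b c + tc b b
  have hK2 : 2 ≤ K := by show 2 ≤ 3 + 2 * c + 2 * b + tc b c + tc b b; linarith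
  have hK1 : 1 ≤ K := by linarith
  have hcK : 1 + 2 * c ≤ K := by
    show 1 + 2 * c ≤ 3 + 2 * c + 2 * b + tc b c + tc b b; linarith
  have hbK : 1 + 2 * b ≤ K := by
    show 1 + 2 * b ≤ 3 + 2 * c + 2 * b + tc b c + tc b b; linarith
  have htcK : tc b c ≤ K := by
    show tc b c ≤ 3 + 2 * c + 2 * b + tc b c + tc b b; linarith
  have htbK : tc b b ≤ K := by
    show tc b b ≤ 3 + 2 * c + 2 * b + tc b c + tc b b; linarith
  refine ⟨K ^ 20, one_le_pow₀ hK1, ?_⟩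
  intro γ δ β α _ _ _ _ k hk hα hg1 hg2 r hr H
  -- the block (γ ⊕ δ) ⊕ β
  have e1 : (Nι (((γ ⊕ δ) ⊕ β) ⊕ α)).comp (exl ((γ ⊕ δ) ⊕ β) α) = Nι ((γ ⊕ δ) ⊕ β) := by
    ext x; exact norm_exl _ _ x
  have H1 : Hyp b k (Nι ((γ ⊕ δ) ⊕ β)) (r.comp (exl ((γ ⊕ δ) ⊕ β) α)) := by
    rw [← e1]; exact H.comp _ (exl_injective _ _)
  have i1 : Iso c (Nι ((γ ⊕ δ) ⊕ β)) (r.comp (exl ((γ ⊕ δ) ⊕ β) α)) :=
    hg1 _ (hr.comp _ (exl_injective _ _)) H1
  obtain ⟨ψ, a1, a2⟩ := structure_lemma ((γ ⊕ δ) ⊕ β) α γ hb hc H i1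
    (exl (γ ⊕ δ) β ∘ₗ exl γ δ) (fun y => by
      show ‖exl (γ ⊕ δ) β (exl γ δ y)‖ = ‖y‖
      rw [norm_exl, norm_exl]) (by omega) hK2 hcK htcK
  -- the subspace (γ ⊕ δ) ⊕ α
  let j := jemb (γ ⊕ δ) β α
  have hj : Function.Injective j := by
    rw [← LinearMap.ker_eq_bot, LinearMap.ker_eq_bot']
    intro x hx
    have h1 : ‖j x‖ = ‖x‖ := norm_jemb (γ ⊕ δ) β α x
    rw [hx, norm_zero] at h1
    exact norm_eq_zero.1 h1.symm
  let r₁ : Seminorm ℝ ((γ ⊕ δ) ⊕ α → ℝ) := r.comp j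
  have e2 : (Nι (((γ ⊕ δ) ⊕ β) ⊕ α)).comp j = Nι ((γ ⊕ δ) ⊕ α) := by
    ext x; exact norm_jemb _ _ _ x
  have H2 : Hyp b k (Nι ((γ ⊕ δ) ⊕ α)) r₁ := by
    rw [← e2]; exact H.comp _ hj
  have i2 : Iso c (Nι ((γ ⊕ δ) ⊕ α)) r₁ := hg2 _ (hr.comp _ hj) H2
  have e3 : (Nι ((γ ⊕ δ) ⊕ α)).comp (exl (γ ⊕ δ) α) = Nι (γ ⊕ δ) := by
    ext x; exact norm_exl _ _ x
  have i3 : Iso b (Nι (γ ⊕ δ)) (r₁.comp (exl (γ ⊕ δ) α)) := by
    rw [← e3]
    exact H2.inj _ (exl_injective _ _) (by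
      rw [Module.finrank_fintype_fun_eq_card, Fintype.card_sum]; exact hk)
  obtain ⟨ψ₁, b1, b2⟩ := structure_lemma (γ ⊕ δ) α γ hb hb H2 i3
    (exl γ δ) (fun y => norm_exl _ _ y) (by omega) hK2 hbK htbK
  -- the common copy of γ
  have e4 : r₁.comp (exl (γ ⊕ δ) α ∘ₗ exl γ δ) =
      r.comp (exl ((γ ⊕ δ) ⊕ β) α ∘ₗ (exl (γ ⊕ δ) β ∘ₗ exl γ δ)) := by
    ext y
    show r (jemb (γ ⊕ δ) β α (exl (γ ⊕ δ) α (exl γ δ y))) =
      r (exl ((γ ⊕ δ) ⊕ β) α (exl (γ ⊕ δ) β (exl γ δ y)))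
    rw [jemb_exl]
  rw [e4] at b2
  generalize r.comp (exl ((γ ⊕ δ) ⊕ β) α ∘ₗ (exl (γ ⊕ δ) β ∘ₗ exl γ δ)) = X at a2 b2
  have hbK' : b ≤ K := by linarith
  have hcK' : c ≤ K := by linarith
  have n1 : R K 0 (Nι (γ ⊕ δ)) (Nι (α ⊕ γ)) := N_congr (by
    rw [Fintype.card_sum, Fintype.card_sum]; omega)
  -- Z ⊕ ℓ_∞^k ~ ℓ_∞^(k+s)
  have c1 : R K 4 (ds (r.comp (LinearMap.ker ψ).subtype) (Nι (γ ⊕ δ)))
      (ds (r.comp (LinearMap.ker ψ).subtype) (ds (r₁.comp (LinearMap.ker ψ₁).subtype) X)) := by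
    have h1 : R K 4 (Nι (γ ⊕ δ)) (ds (r₁.comp (LinearMap.ker ψ₁).subtype) X) :=
      (n1.trans hK1 (b2.symm hK1)).mono hK1 (by omega)
    exact ((R.refl _).mono hK1 (by omega)).ds h1
  have c2 : R K 0 (ds (r.comp (LinearMap.ker ψ).subtype)
      (ds (r₁.comp (LinearMap.ker ψ₁).subtype) X))
      (ds (r₁.comp (LinearMap.ker ψ₁).subtype) (ds (r.comp (LinearMap.ker ψ).subtype) X)) := by
    have h1 : R K 0 (ds (r.comp (LinearMap.ker ψ).subtype)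
        (ds (r₁.comp (LinearMap.ker ψ₁).subtype) X))
        (ds (ds (r.comp (LinearMap.ker ψ).subtype) (r₁.comp (LinearMap.ker ψ₁).subtype)) X) :=
      (ds_assoc _ _ _).symm hK1
    have h2 : R K 0 (ds (ds (r.comp (LinearMap.ker ψ).subtype)
        (r₁.comp (LinearMap.ker ψ₁).subtype)) X)
        (ds (ds (r₁.comp (LinearMap.ker ψ₁).subtype) (r.comp (LinearMap.ker ψ).subtype)) X) :=
      (ds_comm _ _).ds (R.refl _)
    exact (h1.trans hK1 h2).trans hK1 (ds_assoc _ _ _)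
  have c3 : R K 2 (ds (r₁.comp (LinearMap.ker ψ₁).subtype)
      (ds (r.comp (LinearMap.ker ψ).subtype) X))
      (ds (r₁.comp (LinearMap.ker ψ₁).subtype) (Nι (γ ⊕ δ))) := by
    have h1 : R K 2 (ds (r.comp (LinearMap.ker ψ).subtype) X) (Nι (γ ⊕ δ)) :=
      (a2.trans hK1 (n1.symm hK1)).mono hK1 (by omega)
    exact ((R.refl _).mono hK1 (by omega)).ds h1
  have c4 : R K 2 (ds (r₁.comp (LinearMap.ker ψ₁).subtype) (Nι (γ ⊕ δ))) r₁ := by
    have h1 : R K 0 (ds (r₁.comp (LinearMap.ker ψ₁).subtype) (Nι (γ ⊕ δ)))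
        (ds (Nι (γ ⊕ δ)) (r₁.comp (LinearMap.ker ψ₁).subtype)) := ds_comm _ _
    have h2 : R K 1 (ds (Nι (γ ⊕ δ)) (r₁.comp (LinearMap.ker ψ₁).subtype))
        (ds (r₁.comp (exl (γ ⊕ δ) α)) (r₁.comp (LinearMap.ker ψ₁).subtype)) :=
      (R.of_iso hK1 hbK' i3).ds ((R.refl _).mono hK1 (by omega))
    exact ((h1.trans hK1 h2).trans hK1 (b1.symm hK1)).mono hK1 (by omega)
  have c5 : R K 1 r₁ (Nι ((γ ⊕ δ) ⊕ α)) := (R.of_iso hK1 hcK' i2).symm hK1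
  have c6 : R K 9 (ds (r.comp (LinearMap.ker ψ).subtype) (Nι (γ ⊕ δ)))
      (Nι ((γ ⊕ δ) ⊕ α)) :=
    ((((c1.trans hK1 c2).trans hK1 c3).trans hK1 c4).trans hK1 c5).mono hK1 (by omega)
  -- r ~ ℓ_∞
  have d1 : R K 2 r (ds (Nι ((γ ⊕ δ) ⊕ β)) (r.comp (LinearMap.ker ψ).subtype)) := by
    have h1 : R K 1 (ds (r.comp (exl ((γ ⊕ δ) ⊕ β) α)) (r.comp (LinearMap.ker ψ).subtype))
        (ds (Nι ((γ ⊕ δ) ⊕ β)) (r.comp (LinearMap.ker ψ).subtype)) :=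
      ((R.of_iso hK1 hcK' i1).symm hK1).ds ((R.refl _).mono hK1 (by omega))
    exact (a1.trans hK1 h1).mono hK1 (by omega)
  have d2 : R K 1 (ds (Nι ((γ ⊕ δ) ⊕ β)) (r.comp (LinearMap.ker ψ).subtype))
      (ds (ds (Nι β) (Nι (γ ⊕ δ))) (r.comp (LinearMap.ker ψ).subtype)) := by
    have h1 : R K 1 (Nι ((γ ⊕ δ) ⊕ β)) (ds (Nι β) (Nι (γ ⊕ δ))) :=
      (((N_sum (γ ⊕ δ) β hK2).symm hK1).trans hK1 (ds_comm _ _)).mono hK1 (by omega)
    exact h1.ds ((R.refl _).mono hK1 (by omega))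
  have d3 : R K 0 (ds (ds (Nι β) (Nι (γ ⊕ δ))) (r.comp (LinearMap.ker ψ).subtype))
      (ds (Nι β) (ds (r.comp (LinearMap.ker ψ).subtype) (Nι (γ ⊕ δ)))) :=
    (ds_assoc _ _ _).trans hK1 ((R.refl _).ds (ds_comm _ _))
  have d4 : R K 9 (ds (Nι β) (ds (r.comp (LinearMap.ker ψ).subtype) (Nι (γ ⊕ δ))))
      (ds (Nι β) (Nι ((γ ⊕ δ) ⊕ α))) :=
    ((R.refl _).mono hK1 (by omega)).ds c6
  have d5 : R K 1 (ds (Nι β) (Nι ((γ ⊕ δ) ⊕ α))) (Nι (β ⊕ ((γ ⊕ δ) ⊕ α))) :=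
    N_sum _ _ hK2
  have d6 : R K 0 (Nι (β ⊕ ((γ ⊕ δ) ⊕ α))) (Nι (((γ ⊕ δ) ⊕ β) ⊕ α)) := N_congr (by
    simp only [Fintype.card_sum]; omega)
  have d7 := ((((d1.trans hK1 d2).trans hK1 d3).trans hK1 d4).trans hK1 d5).trans hK1 d6
  exact (d7.symm hK1).mono hK1 (by omega)

end climb

end Pool.Agent.MP3e8c7ak
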