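import Pool.Agent.Work.MP_3e8c7a_k.Climb
import Pool.Agent.Work.MP_3e8c7a_k.B_MOM
import Pool.Agent.Work.MP_3e8c7a_k.B_ROW
import Pool.Agent.Work.MP_3e8c7a_k.B_LOW
import Pool.Agent.Work.MP_3e8c7a_k.B_MGF
import Pool.Agent.Work.MP_3e8c7a_k.B_NET
import Pool.Agent.Work.MP_3e8c7a_k.B_OPN
import Pool.Agent.Work.MP_3e8c7a_k.B_KAS
import Pool.Agent.Work.MP_3e8c7a_k.B_EUC
import Pool.Agent.Work.MP_3e8c7a_k.B_COD

/-!
# MP_3e8c7a_an: the cube, all proportions; a cube times a body, all proportions up to 1/2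
-/

namespace Pool.Agent.MP3e8c7ak

open Module MP3e8c7a

theorem kashin : Stmt_KAS := KAS (LOW (ROW MOM)) NET (OPN MGF NET)

/-- Kashin sections of dimension `s` with `s = 1` or `D s ≤ n`. -/
lemma kashin_one (n : ℕ) : ∃ G : Fin n → Fin 1 → ℝ,
    (1 ≤ n → ∀ x : Fin 1 → ℝ, (∀ i, ∑ a, G i a * x a = 0) → x = 0) ∧
    ∀ x : Fin 1 → ℝ, (n : ℝ) * ∑ i, (∑ a, G i a * x a) ^ 2 ≤
      172000 * (∑ i, |∑ a, G i a * x a|) ^ 2 := by
  refine ⟨fun _ _ => 1, fun hn x hx => ?_, fun x => ?_⟩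
  · have h := hx ⟨0, hn⟩
    simp only [Fin.sum_univ_one, one_mul] at h
    funext a
    rw [Subsingleton.elim a 0, h]; rfl
  · simp only [Fin.sum_univ_one, one_mul, Finset.sum_const, Finset.card_univ, Fintype.card_fin,
      nsmul_eq_mul]
    rw [mul_pow, sq_abs]
    nlinarith [mul_nonneg (sq_nonneg (n : ℝ)) (sq_nonneg (x 0))]

/-- **Base claim** for `k + s` coordinates, `s` small. -/
theorem base_good (b : ℝ) (hb : 1 ≤ b) : ∃ (c : ℝ) (D : ℕ), 1 ≤ c ∧ 1 ≤ D ∧ ∀ k s : ℕ, 1 ≤ k →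
    1 ≤ s → s ≤ k → (s = 1 ∨ D * s ≤ k) → Good b k c (Fin (k + s)) := by
  obtain ⟨D, hD, hK⟩ := kashin
  let C : ℝ := (1 + 2 * (b * 1)) * (b * 1 + tc b (b * 1) * (1 + 1))
  have htc : 1 ≤ tc b (b * 1) := one_le_tc hb (by linarith)
  have hC : 1 ≤ C := by
    show 1 ≤ (1 + 2 * (b * 1)) * (b * 1 + tc b (b * 1) * (1 + 1))
    nlinarith
  obtain ⟨c, hc1, hc⟩ := base_iso EUC COD b C hb hC
  refine ⟨c, D, hc1, hD, ?_⟩
  intro k s hk hs1 hsk hsD r hr H
  obtain ⟨k', rfl⟩ : ∃ k', k = k' + 1 := ⟨k - 1, by omega⟩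
  -- complementation
  have hext : Function.Injective (ext0 (k' + 1) (k' + 1 + s)) :=
    Function.LeftInverse.injective (res_ext0 (k' + 1) (k' + 1 + s) (by omega))
  have hA : Iso b ((Nn (k' + 1 + s)).comp
      (((LinearEquiv.refl ℝ (Fin (k' + 1 + s) → ℝ)).symm :
        (Fin (k' + 1 + s) → ℝ) →ₗ[ℝ] (Fin (k' + 1 + s) → ℝ)) ∘ₗ ext0 (k' + 1) (k' + 1 + s)))
      (r.comp (((LinearEquiv.refl ℝ (Fin (k' + 1 + s) → ℝ)).symm :
        (Fin (k' + 1 + s) → ℝ) →ₗ[ℝ] (Fin (k' + 1 + s) → ℝ)) ∘ₗ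
          ext0 (k' + 1) (k' + 1 + s))) :=
    H.inj _ (fun x y h => hext h) (by
      rw [Module.finrank_fintype_fun_eq_card, Fintype.card_fin])
  have hcpl := rem_cpl (V := Fin (k' + 1 + s) → ℝ) (M := 1) hb le_rfl hb (N := k' + 1) (ρ := s)
    rfl hsk le_rfl H (LinearEquiv.refl ℝ _) (fun x => le_rfl) (fun x => by
      rw [one_mul]; exact le_rfl) hA
  have hcpl2 := hcpl.reindex (N := Fintype.card (Fin (k' + 1) ⊕ (Fin s ⊕ Fin (k' + 1 - s)))) rfl
  -- the section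
  obtain ⟨G, hG1, hG2⟩ : ∃ G : Fin (k' + 1 + s) → Fin s → ℝ,
      (∀ x : Fin s → ℝ, (∀ i, ∑ a, G i a * x a = 0) → x = 0) ∧
      ∀ x : Fin s → ℝ, ((k' + 1 + s : ℕ) : ℝ) * ∑ i, (∑ a, G i a * x a) ^ 2 ≤
        172000 * (∑ i, |∑ a, G i a * x a|) ^ 2 := by
    rcases hsD with rfl | hsD
    · obtain ⟨G, h1, h2⟩ := kashin_one (k' + 1 + 1)
      exact ⟨G, h1 (by omega), h2⟩
    · exact hK (k' + 1 + s) s (by omega) (by omega)
  exact hc (k' + 1 + s) (k' + 1) s _ G r (by omega) rfl hG1 hG2 hr H hcpl2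

/-- **Climb.** -/
theorem climb (b c₀ : ℝ) (hb : 1 ≤ b) (hc₀ : 1 ≤ c₀) (i : ℕ) : ∃ c : ℝ, 1 ≤ c ∧
    ∀ k s : ℕ, 1 ≤ s → s ≤ k → (∀ s', 1 ≤ s' → s' ≤ s → Good b k c₀ (Fin (k + s'))) →
      ∀ n, k ≤ n → n ≤ k + i * s → Good b k c (Fin n) := by
  induction i with
  | zero =>
    refine ⟨b, hb, ?_⟩
    intro k s _ _ _ n h1 h2 r _ H
    have hn : n = k := by omega
    subst hn
    exact H.inj LinearMap.id (fun x y h => h) (by
      rw [Module.finrank_fintype_fun_eq_card, Fintype.card_fin])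
  | succ i ih =>
    obtain ⟨c, hc, hI⟩ := ih
    obtain ⟨C, hC, hstep⟩ := climb_step b (c + c₀) hb (by linarith)
    refine ⟨C + c, by linarith, ?_⟩
    intro k s hs1 hsk hbase n h1 h2
    by_cases hn : n ≤ k + i * s
    · exact (hI k s hs1 hsk hbase n h1 hn).mono (by linarith)
    · have e1 : (i + 1) * s = i * s + s := by ring
      obtain ⟨s', hs', hs'2, hs'3⟩ : ∃ s', n = (k + i * s) + s' ∧ 1 ≤ s' ∧ s' ≤ s :=
        ⟨n - (k + i * s), by omega, by omega, by omega⟩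
      have g1 : Good b k (c + c₀) (Fin (k + i * s)) :=
        (hI k s hs1 hsk hbase (k + i * s) (by omega) le_rfl).mono (by linarith)
      have g2 : Good b k (c + c₀) (Fin (k + s')) := (hbase s' hs'2 hs'3).mono (by linarith)
      have g3 := hstep (Fin (k - s')) (Fin s') (Fin (i * s)) (Fin s') k
        (by simp only [Fintype.card_fin]; omega) rfl
        (g1.congr (by simp only [Fintype.card_sum, Fintype.card_fin]; omega))
        (g2.congr (by simp only [Fintype.card_sum, Fintype.card_fin]; omega))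
      have g4 : Good b k C (Fin n) :=
        g3.congr (by simp only [Fintype.card_sum, Fintype.card_fin]; omega)
      exact g4.mono (by linarith)

/-- **The cube, all proportions**, at the level of norms. -/
theorem cube_good (b : ℝ) (hb : 1 ≤ b) (J : ℕ) : ∃ c : ℝ, 1 ≤ c ∧ ∀ k n : ℕ, 1 ≤ k → k ≤ n →
    n ≤ J * k → Good b k c (Fin n) := by
  obtain ⟨c₀, D, hc₀, hD, hbase⟩ := base_good b hb
  obtain ⟨c, hc, hcl⟩ := climb b c₀ hb hc₀ (J * (2 * D))
  refine ⟨c, hc, ?_⟩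
  intro k n hk hkn hnJ
  have h2D : k ≤ 2 * D * max 1 (k / D) := by
    rcases Nat.lt_or_ge k D with h | h
    · have : max 1 (k / D) ≥ 1 := le_max_left _ _
      nlinarith
    · have h1 : 1 ≤ k / D := (Nat.one_le_div_iff (by omega)).2 h
      have h2 : k < D * (k / D + 1) := Nat.lt_mul_div_succ k (by omega)
      have h3 : k / D ≤ max 1 (k / D) := le_max_right _ _
      nlinarith
  refine hcl k (max 1 (k / D)) (le_max_left _ _) (max_le hk (Nat.div_le_self _ _)) ?_ n hkn ?_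
  · intro s' h1 h2
    refine hbase k s' hk h1 (h2.trans (max_le hk (Nat.div_le_self _ _))) ?_
    rcases le_max_iff.1 h2 with h | h
    · exact Or.inl (by omega)
    · exact Or.inr ((Nat.mul_le_mul_left D h).trans (Nat.mul_div_le k D))
  · have h3 : J * k ≤ J * (2 * D * max 1 (k / D)) := Nat.mul_le_mul_left J h2D
    have h4 : J * (2 * D * max 1 (k / D)) = J * (2 * D) * max 1 (k / D) := by ring
    omega

/-- A norm `M`-equivalent to the sup norm through a linear map. -/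
lemma good_apply {b M c : ℝ} (hb : 1 ≤ b) (hM : 1 ≤ M) {k n : ℕ}
    (hg : Good (M * b) k c (Fin n)) {V : Type} [AddCommGroup V] [Module ℝ V]
    {p r : Seminorm ℝ V} (hr : Def r) (H : Hyp b k p r) (i : (Fin n → ℝ) →ₗ[ℝ] V)
    (hi : Function.Injective i) (h1 : ∀ a, p (i a) ≤ ‖a‖) (h2 : ∀ a, ‖a‖ ≤ M * p (i a)) :
    Iso (M * c) (p.comp i) (r.comp i) ∨ c < 0 := by
  by_cases hc : c < 0
  · exact Or.inr hc
  left
  have H1 : Hyp b k (p.comp i) (r.comp i) := H.comp i hi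
  have hN : ∀ E : Submodule ℝ (Fin n → ℝ), Iso M ((Nn n).comp E.subtype)
      ((p.comp i).comp E.subtype) := fun E => by
    have : Iso M ((p.comp i).comp E.subtype) ((Nn n).comp E.subtype) :=
      ⟨LinearEquiv.refl ℝ _, fun x => ⟨h1 x, h2 x⟩⟩
    exact this.symm (by linarith)
  have H2 : Hyp (M * b) k (Nn n) (r.comp i) := fun E hE =>
    (hN E).trans (H1 E hE) (by linarith)
  have h3 := hg _ (hr.comp i hi) H2
  have h4 : Iso M (p.comp i) (Nn n) := ⟨LinearEquiv.refl ℝ _, fun x => ⟨h1 x, h2 x⟩⟩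
  exact h4.trans h3 (by linarith)

end Pool.Agent.MP3e8c7ak
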