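import Pool.Agent.Work.MP_3e8c7a.Hyper

/-!
# MP_3e8c7a_an, part 2: Kashin sections of small proportion, for THEOREM CUBE (all proportions)

THEOREM CUBE (K = cube, L arbitrary, EVERY `α`): Q1 has the answer yes. The proof needs a subspace
`F` of `ℝ^n` of dimension `s ≤ n / D` with `√n ‖y‖₂ ≤ C ‖y‖₁` on `F` (Kashin), the range of a random
sign matrix. All statements below are finite counting statements or linear algebra.

Every block is one file `B_X.lean` with `theorem X : Stmt_X` (or `theorem X (h : Stmt_Y) : Stmt_X`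
when the docstring says that it uses `Y`), namespace `Pool.Agent.MP3e8c7ak`.
-/

namespace Pool.Agent.MP3e8c7ak

open Module

/-- The sign of a Boolean. -/
def sg (c : Bool) : ℝ := if c then 1 else -1

/-- `⟨g, x⟩` for a row `g` of signs. -/
def dt {s : ℕ} (g : Fin s → Bool) (x : Fin s → ℝ) : ℝ := ∑ a, sg (g a) * x a

/-- The square of the Euclidean norm. -/
def sq {d : ℕ} (x : Fin d → ℝ) : ℝ := ∑ a, x a ^ 2

/-- MOM (60 lines). Second and fourth moment of a Rademacher sum.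
Proof. Induction on `s` with `Fin.sum_univ_succ`, `Fin.consEquiv` (or `Fin.insertNthEquiv`,
`Fintype.sum_equiv`) splitting `g = cons c g'`: `dt g x = sg c * x 0 + dt g' (tail x)`. With
`W = dt g' (tail x)`, `a = x 0`, the sum over `c` of `(W ± a) ^ 2` is `2 W² + 2 a²` and of
`(W ± a) ^ 4` is `2 W⁴ + 12 a² W² + 2 a⁴`. Hence by induction the second sum is
`2 (2^s' σ² + 2^s' a²)` (`σ² = sq (tail x)`) and the fourth is
`≤ 2 · 2^s' (3 σ⁴ + 6 a² σ² + a⁴) ≤ 3 · 2^s (σ² + a²)²`. -/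
def Stmt_MOM : Prop := ∀ (s : ℕ) (x : Fin s → ℝ),
  (∑ g : Fin s → Bool, (dt g x) ^ 2 = 2 ^ s * sq x) ∧
  (∑ g : Fin s → Bool, (dt g x) ^ 4 ≤ 3 * 2 ^ s * (sq x) ^ 2)

/-- ROW (60 lines), uses MOM. Laplace transform of one row.
Proof. For `w ≥ 0`: `w ≥ w² - (4/27) w⁴` (the difference is
`w (1 - w + (4/27) w³) = w · (4/27) (w + 3) (w - 3/2)² ≥ 0`). Hence
`∑_g |dt g x| ≥ 2^s (S - (4/27) · 3 S²) = 2^s (S - (4/9) S²) ≥ 2^s / 2` for `S = sq x ∈ [3/4, 5/4]`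
(`S - (4/9) S² ≥ 1/2` there: concave in `S`, `1/2` at `3/4` and `5/9` at `5/4`). And
`exp (-t) ≤ 1 - t + t²/2` for `t ≥ 0` with `t = (2/5) |dt g x|`:
`∑_g exp(-(2/5) |dt g x|) ≤ 2^s (1 - (2/5)(1/2) + (2/25) S) ≤ 2^s (1 - 1/5 + 1/10)`. -/
def Stmt_ROW : Prop := ∀ (s : ℕ) (x : Fin s → ℝ), 3 / 4 ≤ sq x → sq x ≤ 5 / 4 →
  ∑ g : Fin s → Bool, Real.exp (-((2 / 5) * |dt g x|)) ≤ 2 ^ s * (9 / 10)

/-- LOW (60 lines), uses ROW. Few sign matrices `G` (rows `G i`) have `‖G x‖₁ < n / 10`.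
Proof. `∑_G exp(-(2/5) ∑_i |dt (G i) x|) = (∑_g exp(-(2/5)|dt g x|))^n ≤ (2^s · 9/10)^n`
(`Finset.prod_univ_sum` / `Fintype.piFinset_univ`, or `Finset.sum_pow'`, `Real.exp_sum`). Each bad
`G` contributes at least `exp(-(2/5) n/10) = exp(-1/25)^n`, so the number of bad `G` is at most
`2^(s n) (exp(1/25) · 9/10)^n ≤ 2^(s n) (19/20)^n`, since `exp(1/25) ≤ 19/18`
(`exp(-1/25) ≥ 1 - 1/25 = 24/25 ≥ 18/19`). -/
def Stmt_LOW : Prop := ∀ (n s : ℕ) (x : Fin s → ℝ), 3 / 4 ≤ sq x → sq x ≤ 5 / 4 →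
  ((Finset.univ.filter (fun G : Fin n → Fin s → Bool =>
    ∑ i, |dt (G i) x| < (n : ℝ) / 10)).card : ℝ) ≤ 2 ^ (s * n) * (19 / 20) ^ n

/-- MGF (80 lines). Few sign matrices have `⟨G x, z⟩ ≥ t`.
Proof. For `l = t / 4`: `∑_G exp(l ∑_i z_i dt (G i) x) = ∏_{i,a} (exp(l z_i x_a) + exp(-l z_i x_a))
= ∏_{i,a} 2 cosh(l z_i x_a) ≤ 2^(s n) exp(l² (sq z)(sq x) / 2) ≤ 2^(s n) exp(2 l²)`
(`Real.cosh_le_exp_half_sq`; the product formula twice as in LOW: first the product over `i`, then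
over `a`). Each bad `G` contributes at least `exp(l t)`, and `2 l² - l t = -t²/8`. -/
def Stmt_MGF : Prop := ∀ (n s : ℕ) (x : Fin s → ℝ) (z : Fin n → ℝ) (t : ℝ), 0 ≤ t →
  sq x ≤ 2 → sq z ≤ 2 →
  ((Finset.univ.filter (fun G : Fin n → Fin s → Bool =>
    t ≤ ∑ i, z i * dt (G i) x)).card : ℝ) ≤ 2 ^ (s * n) * Real.exp (-(t ^ 2 / 8))

/-- NET (120 lines). A net of the Euclidean unit ball made of lattice points.
Proof. `d = 0`: `N = {0}`. For `d ≥ 1` let `N` be the image of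
`Z = {z : Fin d → ℤ | |z a| ≤ B, ∑ z a ^ 2 ≤ (h+1)² d}` (`B = (h+1)² d`, a filter of
`Fintype.piFinset (fun _ => Finset.Icc (-B) B)`) under `z ↦ z / (h √d)`. Cardinality: with the weight
`2^(-∑ z a²)` every point of `Z` has weight `≥ 2^(-(h+1)² d)`, and the sum of the weights over the
whole box is `(∑_{t ∈ [-B, B]} 2^(-t²))^d ≤ 3^d`, because `2^(-t²) ≤ 2^(-|t|)` and
`1 + 2 ∑_{t ≥ 1} 2^(-t) = 3`. So `card Z ≤ 3^d 2^((h+1)² d)`. Covering: for `sq x ≤ 1` take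
`z a = round (x a * h * √d)`; then `|x a h √d - z a| ≤ 1/2`, so `sq (x - z/(h√d)) ≤ d/(4 h² d)`, and
`∑ z a² ≤ (h+1)² d` because `z a² ≤ (|x a| h √d + 1/2)²`, sum with Cauchy-Schwarz:
`≤ h² d + h √d · √d + d/4 ≤ (h + 1)² d` (`∑ |x a| ≤ √d`). Also `|z a| ≤ z a ^ 2 ≤ B`. -/
def Stmt_NET : Prop := ∀ (h d : ℕ), 1 ≤ h → ∃ N : Finset (Fin d → ℝ),
  (N.card : ℝ) ≤ (3 * 2 ^ ((h + 1) ^ 2)) ^ d ∧
  ∀ x : Fin d → ℝ, sq x ≤ 1 → ∃ y ∈ N, sq (x - y) ≤ 1 / (4 * (h : ℝ) ^ 2)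

open Classical in
/-- OPN (180 lines), uses MGF and NET. At most a quarter of the sign matrices have
`‖G x‖₂² > 430 n ‖x‖₂²` for some `x`.
Proof. Let `t = √(136 n)`, `N_s`, `N_n` the nets of NET with `h = 2` in dimensions `s` and `n`
(cardinality at most `1536^s`, `1536^n`), restricted to the points with `sq ≤ 2`. Call `G` good if
`⟨G x', z'⟩ = ∑ i, z' i * dt (G i) x' < t` for all `x' ∈ N_s`, `z' ∈ N_n` (with `sq ≤ 2`). By MGF
the number of bad `G` is at most `1536^(s+n) 2^(s n) exp(-17 n) ≤ 2^(s n) (1536² exp(-17))^n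
≤ 2^(s n) / 4`, as `s ≤ n` and `1536² ≤ exp(17)/4` (`exp 1 ≥ 2.7`, `2.7^17 > 4 · 1536²`).
Let `G` be good and `‖·‖` the Euclidean norm. (1) For `x' ∈ N_s` with `sq x' ≤ 2`:
`‖G x'‖ ≤ (4/3) t`. If `y = G x' ≠ 0` take `z = y/‖y‖` and `z' ∈ N_n` with `‖z - z'‖ ≤ 1/4` (then
`‖z'‖ ≤ 5/4`, `sq z' ≤ 2`): `‖y‖ = ⟨y, z'⟩ + ⟨y, z - z'⟩ ≤ t + ‖y‖/4`. (2) Let `M` be the operator
norm of `G : ℝ^s → ℝ^n` (Euclidean norms, `LinearMap.toContinuousLinearMap`). For `‖x‖ = 1` take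
`x' ∈ N_s` with `‖x - x'‖ ≤ 1/4`, so `sq x' ≤ 25/16 ≤ 2`, and `‖G x‖ ≤ ‖G x'‖ + ‖G(x - x')‖
≤ (4/3) t + M/4`. By `ContinuousLinearMap.opNorm_le_of_unit_norm` `M ≤ (4/3) t + M/4`, so
`M ≤ (16/9) t` and `M² ≤ (256/81) · 136 n ≤ 430 n`. -/
def Stmt_OPN : Prop := ∀ n s : ℕ, 1 ≤ n → s ≤ n →
  ((Finset.univ.filter (fun G : Fin n → Fin s → Bool =>
    ¬ ∀ x : Fin s → ℝ, ∑ i, (dt (G i) x) ^ 2 ≤ 430 * n * sq x)).card : ℝ) ≤ 1 / 4 * 2 ^ (s * n)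

/-- KAS (150 lines), uses LOW, NET, OPN. Kashin's theorem for small proportion.
Proof. `A = 3 · 2^(251^2)` is the constant of NET for `h = 250`. Choose `D ≥ 1` with
`A (19/20)^D ≤ 1/4` (`exists_pow_lt_of_lt_one`). Let `n ≥ 1`, `D s ≤ n`. If `s = 0` take any `G`
(the sums over `Fin 0` vanish). Let `s ≥ 1`, so `s ≤ n`. Let `N` be the net of NET with `h = 250`,
`d = s`. By LOW the number of sign matrices with `∑ i, |dt (G i) x'| < n/10` for some `x' ∈ N` with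
`sq x' ∈ [3/4, 5/4]` is at most `A^s 2^(s n) (19/20)^n ≤ 2^(s n) (A (19/20)^D)^s ≤ 2^(s n)/4`
(as `(19/20)^n ≤ (19/20)^(D s)`), and by OPN at most `2^(s n)/4` fail
`∀ x, ∑ i, (dt (G i) x)^2 ≤ 430 n sq x`. The total number is `2^(s n)`, so some `G` is good for
both. Take the matrix `G i a = sg (G i a)`. Let `sq x = 1`, `x' ∈ N` with
`sq (x - x') ≤ 1/250000` (`‖x - x'‖ ≤ 1/500`): `‖x'‖ ∈ [1 - 1/500, 1 + 1/500]`, so
`sq x' ∈ [3/4, 5/4]`, and by the triangle inequality and Cauchy-Schwarz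
`∑ i |dt (G i) x| ≥ n/10 - √n · √(∑ i (dt (G i) (x - x'))²) ≥ n/10 - √n √(430 n)/500
≥ n/10 - n · 21/500 ≥ n/20`.
By homogeneity `∑ i |dt (G i) x| ≥ (n/20) √(sq x)` for all `x`; this gives the injectivity, and
`n ∑ i (dt (G i) x)² ≤ 430 n² sq x ≤ 172000 (∑ i |dt (G i) x|)²`. -/
def Stmt_KAS : Prop := ∃ D : ℕ, 1 ≤ D ∧ ∀ n s : ℕ, 1 ≤ n → D * s ≤ n →
  ∃ G : Fin n → Fin s → ℝ,
    (∀ x : Fin s → ℝ, (∀ i, ∑ a, G i a * x a = 0) → x = 0) ∧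
    ∀ x : Fin s → ℝ, (n : ℝ) * ∑ i, (∑ a, G i a * x a) ^ 2 ≤
      172000 * (∑ i, |∑ a, G i a * x a|) ^ 2

/-- EUC (120 lines). A matrix with rows `u i` of bounded Hilbert-Schmidt norm is small on a subspace
of bounded codimension.
Proof. Work in `EuclideanSpace ℝ (Fin n)` (or with `dotProduct`). Suppose the claim is false. Build
orthonormal vectors `e_1, …, e_m` with `‖U e_j‖² > 1/4`, `(U x)_i = ∑ j, u i j * x j`: if `e_1, …,
e_l` (`l < m`) are built, the orthogonal complement `X` of their span has codimension `l ≤ m`, so by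
assumption there is `x ∈ X` with `∑ i (U x)_i² > (1/4) sq x`; normalise it. By Bessel's inequality
for the orthonormal family (`Orthonormal.sum_inner_products_le`) `∑_j ⟪u i, e_j⟫² ≤ ‖u i‖²`; sum
over `i`: `m/4 < ∑_j ‖U e_j‖² ≤ ∑_i ‖u i‖² ≤ S ≤ m/4`, a contradiction (for `m = 0` the claim is
trivial: `S ≤ 0` gives `u = 0`, take `X = ⊤`). -/
def Stmt_EUC : Prop := ∀ (n m : ℕ) (u : Fin n → Fin n → ℝ), ∑ i, ∑ j, u i j ^ 2 ≤ (m : ℝ) / 4 →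
  ∃ X : Submodule ℝ (Fin n → ℝ), n ≤ finrank ℝ X + m ∧
    ∀ x ∈ X, ∑ i, (∑ j, u i j * x j) ^ 2 ≤ 1 / 4 * ∑ j, x j ^ 2

/-- COD (80 lines). Spaces with isomorphic subspaces of the same finite codimension `m` are
isomorphic. `Iso`, `Def`, `ds`, `hyper_split` are in `Pool/Agent/Work/MP_3e8c7a/{Base,Hyper}.lean`.
Proof. Induction on `m`, for all `c ≥ 1`, `X`, `Y`. `m = 0`: `X = ⊤`, `Y = ⊤`
(`Submodule.eq_top_of_finrank_eq`), compose with `Submodule.topEquiv`. `m + 1`: choose `v ∉ X`,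
`X₁ = X ⊔ span v`, of dimension one more (copy the lines of `Hyp.pred` in `Hyper.lean`), the same
for `Y₁`. `hyper_split` in `X₁` (for the hyperplane `X.comap X₁.subtype`, with `comap_iso`) gives
`Iso 5 (ds (p|X) |·|) (p|X₁)`, the same for `Y`, so `Iso (25 c) (p|X₁) (r|Y₁)` (see the end of the
proof of `hyper_iso`). Apply the induction hypothesis with `25 c`: `C = 25^m c`. -/
def Stmt_COD : Prop := ∀ (m : ℕ) (c : ℝ), 1 ≤ c → ∃ C : ℝ, 1 ≤ C ∧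
  ∀ (V W : Type) [AddCommGroup V] [Module ℝ V] [AddCommGroup W] [Module ℝ W]
    [FiniteDimensional ℝ V] [FiniteDimensional ℝ W] (p : Seminorm ℝ V) (r : Seminorm ℝ W),
    MP3e8c7a.Def p → MP3e8c7a.Def r → ∀ (X : Submodule ℝ V) (Y : Submodule ℝ W),
    finrank ℝ X + m = finrank ℝ V → finrank ℝ Y + m = finrank ℝ W →
    MP3e8c7a.Iso c (p.comp X.subtype) (r.comp Y.subtype) → MP3e8c7a.Iso C p r

end Pool.Agent.MP3e8c7ak
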