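import Pool.Agent.Work.MP_3e8c7a.AllAlpha
import Pool.Agent.Work.MP_3e8c7a_k.Interface

/-!
# MP_3e8c7a_an: the base claim (operators on a cube vanishing on the orthogonal of a Kashin section)
-/

namespace Pool.Agent.MP3e8c7ak

open Module MP3e8c7a Matrix

/-- The sup norm. -/
noncomputable abbrev Nn (n : ℕ) : Seminorm ℝ (Fin n → ℝ) := normSeminorm ℝ (Fin n → ℝ)

/-- Extension of an operator from a subspace into `ℓ_∞`. -/
lemma exists_ext_op {V : Type*} [AddCommGroup V] [Module ℝ V] {ι : Type*} [Fintype ι]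
    (q : Seminorm ℝ V) (E : Submodule ℝ V) {c : ℝ} (hc : 0 ≤ c) (f : E →ₗ[ℝ] (ι → ℝ))
    (hf : ∀ x : E, ‖f x‖ ≤ c * q x) :
    ∃ g : V →ₗ[ℝ] (ι → ℝ), (∀ x : E, g x = f x) ∧ ∀ x, ‖g x‖ ≤ c * q x := by
  have h1 : ∀ j : ι, ∃ g : V →ₗ[ℝ] ℝ, (∀ a : E, g (E.subtype a) = f a j) ∧
      ∀ x, |g x| ≤ c * q x := by
    intro j
    refine exists_ext q E.subtype Subtype.val_injective hc ((LinearMap.proj j) ∘ₗ f)
      (fun a => ?_)
    have h2 : |f a j| ≤ ‖f a‖ := norm_le_pi_norm (f a) j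
    exact h2.trans (hf a)
  choose g hg1 hg2 using h1
  refine ⟨LinearMap.pi g, fun x => ?_, fun x => ?_⟩
  · funext j; exact hg1 j x
  · rw [pi_norm_le_iff_of_nonneg (mul_nonneg hc (apply_nonneg q x))]
    intro j
    exact hg2 j x

/-- A functional that vanishes on the kernel of `Gᵀ` is in the range of `G`. -/
lemma mem_range_of_vanish {n s : ℕ} (G : Matrix (Fin n) (Fin s) ℝ) (u : Fin n → ℝ)
    (hu : ∀ x : Fin n → ℝ, Gᵀ *ᵥ x = 0 → ∑ j, u j * x j = 0) :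
    ∃ c : Fin s → ℝ, ∀ j, u j = ∑ a, G j a * c a := by
  let T : (Fin n → ℝ) →ₗ[ℝ] (Fin s → ℝ) := Gᵀ.mulVecLin
  let f : (Fin n → ℝ) →ₗ[ℝ] ℝ := ∑ j, u j • LinearMap.proj j
  have hf : ∀ x, f x = ∑ j, u j * x j := fun x => by
    simp [f, LinearMap.sum_apply]
  have h1 : f ∈ (LinearMap.ker T).dualAnnihilator := by
    rw [Submodule.mem_dualAnnihilator]
    intro x hx
    rw [hf]
    exact hu x hx
  rw [← LinearMap.range_dualMap_eq_dualAnnihilator_ker] at h1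
  obtain ⟨g, hg⟩ := h1
  refine ⟨fun a => g (Pi.single a 1), fun j => ?_⟩
  have h2 : f (Pi.single j 1) = u j := by
    rw [hf]; simp [Pi.single_apply]
  have h3 : g (T (Pi.single j 1)) = f (Pi.single j 1) := by rw [← hg]; rfl
  have h4 : T (Pi.single j 1) = fun a => G j a := by
    funext a
    simp [T]
  rw [← h2, ← h3, h4, LinearMap.pi_apply_eq_sum_univ g]
  refine Finset.sum_congr rfl fun a _ => ?_
  rw [smul_eq_mul]
  congr 2
  funext b
  simp [Pi.single_apply, eq_comm]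

lemma finrank_ker_transpose {n s : ℕ} (G : Matrix (Fin n) (Fin s) ℝ)
    (hG : ∀ x : Fin s → ℝ, (∀ i, ∑ a, G i a * x a = 0) → x = 0) :
    finrank ℝ (LinearMap.ker Gᵀ.mulVecLin) + s = n := by
  have h1 : Function.Injective G.mulVecLin := by
    rw [← LinearMap.ker_eq_bot, LinearMap.ker_eq_bot']
    intro x hx
    apply hG
    intro i
    exact congrFun hx i
  have h2 : G.rank = s := by
    rw [Matrix.rank, LinearMap.finrank_range_of_inj h1, Module.finrank_fintype_fun_eq_card,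
      Fintype.card_fin]
  have h3 := LinearMap.finrank_range_add_finrank_ker Gᵀ.mulVecLin
  have h4 : finrank ℝ (LinearMap.range Gᵀ.mulVecLin) = s := by
    have : Gᵀ.rank = s := by rw [Matrix.rank_transpose, h2]
    exact this
  rw [h4, Module.finrank_fintype_fun_eq_card, Fintype.card_fin] at h3
  omega

/-- Row sums of a matrix of an operator on `ℓ_∞`. -/
lemma row_sum_le {n : ℕ} (U : (Fin n → ℝ) →ₗ[ℝ] (Fin n → ℝ)) {B : ℝ} (hB : 0 ≤ B)
    (hU : ∀ x, ‖U x‖ ≤ B * ‖x‖) (i : Fin n) :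
    ∑ j, |LinearMap.toMatrix' U i j| ≤ B := by
  let x : Fin n → ℝ := fun j => SignType.sign (LinearMap.toMatrix' U i j)
  have h1 : (U x) i = ∑ j, |LinearMap.toMatrix' U i j| := by
    have h2 : U x = (LinearMap.toMatrix' U) *ᵥ x := by
      rw [← Matrix.toLin'_apply, Matrix.toLin'_toMatrix']
    rw [h2]
    show ∑ j, LinearMap.toMatrix' U i j * x j = _
    refine Finset.sum_congr rfl fun j _ => ?_
    show LinearMap.toMatrix' U i j * (SignType.sign (LinearMap.toMatrix' U i j) : ℝ) = _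
    rw [mul_comm]; exact sign_mul_self _
  have h3 : ‖x‖ ≤ 1 := by
    rw [pi_norm_le_iff_of_nonneg zero_le_one]
    intro j
    show ‖((SignType.sign (LinearMap.toMatrix' U i j) : SignType) : ℝ)‖ ≤ 1
    rcases SignType.sign (LinearMap.toMatrix' U i j) <;> simp
  rw [← h1]
  calc (U x) i ≤ |(U x) i| := le_abs_self _
    _ ≤ ‖U x‖ := norm_le_pi_norm (U x) i
    _ ≤ B * ‖x‖ := hU x
    _ ≤ B := by nlinarith

/-- The estimate on `X₀`. -/
lemma lower_est {n : ℕ} (hn : 1 ≤ n) (u : Fin n → Fin n → ℝ) {D : ℝ} (hD : 0 ≤ D)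
    (hu : ∀ i, (n : ℝ) * ∑ j, u i j ^ 2 ≤ D ^ 2) (x y : Fin n → ℝ)
    (hxy : ∀ i, x i = y i + ∑ j, u i j * x j)
    (hx : ∑ i, (∑ j, u i j * x j) ^ 2 ≤ 1 / 4 * ∑ j, x j ^ 2) :
    ‖x‖ ≤ (1 + 2 * D) * ‖y‖ := by
  have hn0 : (0 : ℝ) < n := by exact_mod_cast hn
  have h1 : ∑ i, x i ^ 2 ≤ 2 * ∑ i, y i ^ 2 + 2 * ∑ i, (∑ j, u i j * x j) ^ 2 := by
    rw [Finset.mul_sum, Finset.mul_sum, ← Finset.sum_add_distrib]
    refine Finset.sum_le_sum fun i _ => ?_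
    have := hxy i
    rw [this]
    nlinarith [sq_nonneg (y i - ∑ j, u i j * x j)]
  have h2 : ∑ i, y i ^ 2 ≤ n * ‖y‖ ^ 2 := by
    have : ∑ i, y i ^ 2 ≤ ∑ _i : Fin n, ‖y‖ ^ 2 := Finset.sum_le_sum fun i _ => by
      have h3 := norm_le_pi_norm y i
      rw [Real.norm_eq_abs] at h3
      rw [← sq_abs]
      exact pow_le_pow_left₀ (abs_nonneg _) h3 2
    simpa using this
  have h3 : ∑ i, x i ^ 2 ≤ 4 * (n * ‖y‖ ^ 2) := by linarith
  rw [pi_norm_le_iff_of_nonneg (by positivity)]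
  intro i
  have h4 : (∑ j, u i j * x j) ^ 2 ≤ (∑ j, u i j ^ 2) * ∑ j, x j ^ 2 :=
    Finset.sum_mul_sq_le_sq_mul_sq _ _ _
  have h5 : (∑ j, u i j * x j) ^ 2 ≤ (2 * D * ‖y‖) ^ 2 := by
    have h6 := hu i
    have h7 : 0 ≤ ∑ j, u i j ^ 2 := Finset.sum_nonneg fun j _ => sq_nonneg _
    have h8 : (∑ j, u i j ^ 2) * ∑ j, x j ^ 2 ≤ (∑ j, u i j ^ 2) * (4 * (n * ‖y‖ ^ 2)) :=
      mul_le_mul_of_nonneg_left h3 h7
    have h9 : (n * ∑ j, u i j ^ 2) * (4 * ‖y‖ ^ 2) ≤ D ^ 2 * (4 * ‖y‖ ^ 2) :=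
      mul_le_mul_of_nonneg_right h6 (by positivity)
    nlinarith
  have h6 : |∑ j, u i j * x j| ≤ 2 * D * ‖y‖ := abs_le_of_sq_le_sq h5 (by positivity)
  have h7 := norm_le_pi_norm y i
  rw [Real.norm_eq_abs] at h7 ⊢
  rw [hxy i]
  calc |y i + ∑ j, u i j * x j| ≤ |y i| + |∑ j, u i j * x j| := abs_add_le _ _
    _ ≤ ‖y‖ + 2 * D * ‖y‖ := add_le_add h7 h6
    _ = (1 + 2 * D) * ‖y‖ := by ring

/-- **Base claim.** A norm on `ℝ^n` that is `C`-complemented in `ℓ_∞` and `b`-close to the sup norm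
on all subspaces of dimension `n - s` is isomorphic to the sup norm, if there is a Kashin section of
dimension `s`. -/
theorem base_iso (hEUC : Stmt_EUC) (hCOD : Stmt_COD) (b C : ℝ) (hb : 1 ≤ b) (hC : 1 ≤ C) :
    ∃ C' : ℝ, 1 ≤ C' ∧ ∀ (n k s N : ℕ) (G : Fin n → Fin s → ℝ) (r : Seminorm ℝ (Fin n → ℝ)),
      1 ≤ n → k + s = n → (∀ x : Fin s → ℝ, (∀ i, ∑ a, G i a * x a = 0) → x = 0) →
      (∀ x : Fin s → ℝ, (n : ℝ) * ∑ i, (∑ a, G i a * x a) ^ 2 ≤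
        172000 * (∑ i, |∑ a, G i a * x a|) ^ 2) →
      Def r → Hyp b k (Nn n) r → Cpl C (Fin N) r → Iso C' (Nn n) r := by
  -- constants
  let B : ℝ := 1 + C * b
  have hB : 0 ≤ B := by positivity
  let D : ℝ := 415 * B
  have hD : 0 ≤ D := by positivity
  have hDB : 172000 * B ^ 2 ≤ D ^ 2 := by
    show 172000 * B ^ 2 ≤ (415 * B) ^ 2
    nlinarith [sq_nonneg B]
  let m : ℕ := ⌈4 * D ^ 2⌉₊
  let c₀ : ℝ := (1 + 2 * D) * (C * b)
  have hCb : 1 ≤ C * b := by nlinarith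
  have hc₀ : 1 ≤ c₀ := by
    show 1 ≤ (1 + 2 * D) * (C * b)
    nlinarith
  have hex := fun j : ℕ => hCOD j c₀ hc₀
  choose cc hcc1 hcc2 using hex
  have hCj : ∀ j ≤ m, cc j ≤ ∑ j ∈ Finset.range (m + 1), cc j := fun j hj =>
    Finset.single_le_sum (f := cc) (fun i _ => by linarith [hcc1 i])
      (Finset.mem_range.2 (by omega))
  refine ⟨∑ j ∈ Finset.range (m + 1), cc j, (hcc1 0).trans (hCj 0 (Nat.zero_le _)), ?_⟩
  intro n k s N G r hn hks hGi hG hr H hcpl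
  have hn0 : (0 : ℝ) < n := by exact_mod_cast hn
  obtain ⟨u, v, hvu, hu, hv⟩ := hcpl
  let Gm : Matrix (Fin n) (Fin s) ℝ := Matrix.of G
  let E : Submodule ℝ (Fin n → ℝ) := LinearMap.ker Gmᵀ.mulVecLin
  have hE : finrank ℝ E = k := by
    have h : finrank ℝ E + s = n := finrank_ker_transpose Gm hGi
    omega
  obtain ⟨T, hT⟩ := H E hE
  have hT1 : ∀ x : E, ‖(x : Fin n → ℝ)‖ ≤ r (T x) := fun x => (hT x).1
  have hT2 : ∀ x : E, r (T x) ≤ b * ‖(x : Fin n → ℝ)‖ := fun x => (hT x).2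
  -- S
  obtain ⟨S₀, hS₀, hS₁⟩ := exists_ext_op (Nn n) E (c := b) (by linarith)
    (u ∘ₗ E.subtype ∘ₗ (T : E →ₗ[ℝ] E)) (fun x => (hu _).trans (hT2 x))
  let S : (Fin n → ℝ) →ₗ[ℝ] (Fin n → ℝ) := v ∘ₗ S₀
  have hSE : ∀ x : E, S x = T x := fun x => by
    show v (S₀ x) = T x
    rw [hS₀]
    exact hvu _
  have hSn : ∀ x, r (S x) ≤ (C * b) * ‖x‖ := fun x => by
    have h1 := hv (S₀ x)
    have h2 : ‖S₀ x‖ ≤ b * ‖x‖ := hS₁ x
    calc r (S x) ≤ C * ‖S₀ x‖ := h1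
      _ ≤ C * (b * ‖x‖) := mul_le_mul_of_nonneg_left h2 (by linarith)
      _ = (C * b) * ‖x‖ := by ring
  -- S'
  obtain ⟨S', hS'E, hS'n⟩ := exists_ext_op r E (c := 1) zero_le_one
    (E.subtype ∘ₗ (T.symm : E →ₗ[ℝ] E)) (fun x => by
      have := hT1 (T.symm x)
      rw [T.apply_symm_apply] at this
      rw [one_mul]
      exact this)
  have hS'n' : ∀ x, ‖S' x‖ ≤ r x := fun x => by
    have := hS'n x
    rwa [one_mul] at this
  -- U
  let U : (Fin n → ℝ) →ₗ[ℝ] (Fin n → ℝ) := LinearMap.id - S' ∘ₗ S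
  have hUx : ∀ x, U x = x - S' (S x) := fun x => rfl
  have hUE : ∀ x ∈ E, U x = 0 := fun x hx => by
    have h1 : S x = T ⟨x, hx⟩ := hSE ⟨x, hx⟩
    rw [hUx, h1]
    have h2 := hS'E (T ⟨x, hx⟩)
    rw [h2]
    show x - ((T.symm (T ⟨x, hx⟩) : E) : Fin n → ℝ) = 0
    rw [T.symm_apply_apply, sub_self]
  have hUn : ∀ x, ‖U x‖ ≤ B * ‖x‖ := fun x => by
    rw [hUx]
    have h1 := norm_sub_le x (S' (S x))
    have h2 := (hS'n' (S x)).trans (hSn x)
    show _ ≤ (1 + C * b) * ‖x‖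
    linarith
  -- the matrix of U
  let uu : Fin n → Fin n → ℝ := fun i j => LinearMap.toMatrix' U i j
  have hUm : ∀ x i, (U x) i = ∑ j, uu i j * x j := fun x i => by
    have h2 : U x = (LinearMap.toMatrix' U) *ᵥ x := by
      rw [← Matrix.toLin'_apply, Matrix.toLin'_toMatrix']
    rw [h2]
    rfl
  have hrow : ∀ i, (n : ℝ) * ∑ j, uu i j ^ 2 ≤ D ^ 2 := fun i => by
    obtain ⟨c, hc⟩ := mem_range_of_vanish Gm (uu i) (fun x hx => by
      have h1 := congrFun (hUE x hx) i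
      rw [hUm] at h1
      exact h1)
    have h2 := hG c
    have h3 : ∀ j, ∑ a, G j a * c a = uu i j := fun j => (hc j).symm
    simp only [h3] at h2
    have h4 := row_sum_le U hB hUn i
    have h5 : 0 ≤ ∑ j, |uu i j| := Finset.sum_nonneg fun j _ => abs_nonneg _
    have h6 : (∑ j, |uu i j|) ^ 2 ≤ B ^ 2 := pow_le_pow_left₀ h5 h4 2
    linarith
  have htot : ∑ i, ∑ j, uu i j ^ 2 ≤ (m : ℝ) / 4 := by
    have h1 : ∑ i : Fin n, (n : ℝ) * ∑ j, uu i j ^ 2 ≤ ∑ _i : Fin n, D ^ 2 :=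
      Finset.sum_le_sum fun i _ => hrow i
    rw [← Finset.mul_sum] at h1
    simp only [Finset.sum_const, Finset.card_univ, Fintype.card_fin, nsmul_eq_mul] at h1
    have h2 : ∑ i, ∑ j, uu i j ^ 2 ≤ D ^ 2 := le_of_mul_le_mul_left h1 hn0
    have h3 : 4 * D ^ 2 ≤ m := Nat.le_ceil _
    linarith
  obtain ⟨X, hX1, hX2⟩ := hEUC n m uu htot
  -- S on X
  have hlow : ∀ x ∈ X, ‖x‖ ≤ (1 + 2 * D) * r (S x) := fun x hx => by
    have h1 := lower_est hn uu hD hrow x (S' (S x)) (fun i => by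
      rw [← hUm, hUx]
      simp) (hX2 x hx)
    exact h1.trans (mul_le_mul_of_nonneg_left (hS'n' _) (by linarith))
  have hinj : Function.Injective (S ∘ₗ X.subtype) := by
    rw [← LinearMap.ker_eq_bot, LinearMap.ker_eq_bot']
    intro x hx
    have h1 : S (x : Fin n → ℝ) = 0 := hx
    have h2 := hlow x x.2
    rw [h1, map_zero, mul_zero] at h2
    exact Subtype.ext (norm_le_zero_iff.1 h2)
  let Y : Submodule ℝ (Fin n → ℝ) := LinearMap.range (S ∘ₗ X.subtype)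
  let e : X ≃ₗ[ℝ] Y := LinearEquiv.ofInjective (S ∘ₗ X.subtype) hinj
  have he : ∀ x : X, ((e x : Y) : Fin n → ℝ) = S x := fun x => rfl
  have hXY : Iso c₀ ((Nn n).comp X.subtype) (r.comp Y.subtype) := by
    refine Iso.of_bounds e (by linarith) (fun x => ?_) (fun x => ?_)
    · show ‖(x : Fin n → ℝ)‖ ≤ (1 + 2 * D) * r (e x : Y)
      rw [he]; exact hlow x x.2
    · show r (e x : Y) ≤ (C * b) * ‖(x : Fin n → ℝ)‖
      rw [he]; exact hSn x
  have hfn : finrank ℝ (Fin n → ℝ) = n := by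
    rw [Module.finrank_fintype_fun_eq_card, Fintype.card_fin]
  have hXn : finrank ℝ X ≤ n := by
    have := Submodule.finrank_le X
    omega
  have hYX : finrank ℝ Y = finrank ℝ X := (LinearEquiv.finrank_eq e).symm
  have hfin := hcc2 (n - finrank ℝ X) (Fin n → ℝ) (Fin n → ℝ) (Nn n) r
    (fun x hx => norm_eq_zero.1 hx) hr X Y (by rw [hfn]; omega) (by rw [hfn, hYX]; omega) hXY
  exact hfin.mono (hCj _ (by omega))

end Pool.Agent.MP3e8c7ak
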