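import Pool.Agent.Work.MP_3e8c7a_k.Bodies

/-!
# MP_3e8c7a_an: a body with a large cube section
-/

namespace Pool.Agent.MP3e8c7ak

open Module MP3e8c7a

/-- A cube section is complemented (Hahn–Banach). -/
lemma cubeSection_data {M : ℝ} (hM : 1 ≤ M) {m n : ℕ} {K : Set (Fin n → ℝ)}
    {p : Seminorm ℝ (Fin n → ℝ)} (hp : Def p) (hK : ∀ x, x ∈ K ↔ p x ≤ 1)
    (h : HasCubeSection M m K) : ∃ (i : (Fin m → ℝ) →ₗ[ℝ] (Fin n → ℝ))
      (φ : (Fin n → ℝ) →ₗ[ℝ] (Fin m → ℝ)), (∀ a, φ (i a) = a) ∧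
      (∀ a, p (i a) ≤ ‖a‖) ∧ ∀ x, ‖φ x‖ ≤ M ^ 2 * p x := by
  obtain ⟨i, hi, h1, h2⟩ := h
  have q1 : ∀ a, p (i a) ≤ ‖a‖ := fun a => by
    rcases (norm_nonneg a).lt_or_eq with h0 | h0
    · have h3 : i (‖a‖⁻¹ • a) ∈ K := by
        apply h1
        intro l
        show |‖a‖⁻¹ * a l| ≤ 1
        rw [abs_mul, abs_of_pos (inv_pos.2 h0), inv_mul_le_iff₀ h0, mul_one]
        exact norm_le_pi_norm a l
      rw [hK, map_smul, map_smul_eq_mul, Real.norm_eq_abs, abs_of_pos (inv_pos.2 h0),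
        inv_mul_le_iff₀ h0, mul_one] at h3
      exact h3
    · have h3 : a = 0 := norm_eq_zero.1 h0.symm
      rw [h3, map_zero, map_zero]
      exact norm_nonneg _
  have q2 : ∀ a, ‖a‖ ≤ M * p (i a) := fun a => by
    rcases (apply_nonneg p (i a)).lt_or_eq with h0 | h0
    · have h3 : i ((p (i a))⁻¹ • a) ∈ K := by
        rw [hK, map_smul, map_smul_eq_mul, Real.norm_eq_abs, abs_of_pos (inv_pos.2 h0),
          inv_mul_cancel₀ h0.ne']
      have h4 := h2 _ h3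
      rw [pi_norm_le_iff_of_nonneg (by positivity)]
      intro l
      have h5 : |(p (i a))⁻¹ * a l| ≤ M := h4 l
      rw [abs_mul, abs_of_pos (inv_pos.2 h0), inv_mul_le_iff₀ h0] at h5
      show |a l| ≤ M * p (i a)
      linarith
    · have h3 : i a = 0 := hp _ h0.symm
      have h4 : a = 0 := hi (by rw [h3, map_zero])
      rw [h4, norm_zero]
      exact mul_nonneg (by linarith) (apply_nonneg p _)
  have n1 : Iso M (p.comp i) (normSeminorm ℝ (Fin m → ℝ)) :=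
    ⟨LinearEquiv.refl ℝ _, fun a => ⟨q1 a, q2 a⟩⟩
  obtain ⟨φ, hφ1, hφ2⟩ := exists_proj (by linarith) p i hi n1
  refine ⟨i, φ, hφ1, q1, fun x => ?_⟩
  have h3 := (q2 (φ x)).trans (mul_le_mul_of_nonneg_left (hφ2 x) (by linarith : (0 : ℝ) ≤ M))
  calc ‖φ x‖ ≤ M * (M * p x) := h3
    _ = M ^ 2 * p x := by ring

/-- One body has a section of dimension `n - k` within `M` of a cube, `α ≤ 1/2`. -/
theorem cubeSection_half (α b M : ℝ) (hα : 0 < α) (hα2 : α ≤ 1 / 2) (hM : 1 ≤ M) : ∃ C : ℝ,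
    1 ≤ C ∧ ∀ n : ℕ, 0 < n → ∀ K L : Set (Fin n → ℝ), IsBody K → IsBody L →
      SectionsClose ⌈α * n⌉₊ b K L →
      (HasCubeSection M (n - ⌈α * n⌉₊) K ∨ HasCubeSection M (n - ⌈α * n⌉₊) L) →
      dBM K L ≤ ENNReal.ofReal C := by
  have hb : 1 ≤ |b| + 1 := by linarith [abs_nonneg b]
  have hM2 : 1 ≤ M ^ 2 := one_le_pow₀ hM
  obtain ⟨c, hc, hI⟩ := cube_good (M ^ 2 * (|b| + 1)) (by nlinarith) ⌈1 / α⌉₊
  let c' : ℝ := M ^ 2 * c + 25 * (|b| + 1)
  have hMc : 1 ≤ M ^ 2 * c := by nlinarith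
  have hc' : 1 ≤ c' := by
    show 1 ≤ M ^ 2 * c + 25 * (|b| + 1)
    linarith
  have hc'M : 1 ≤ c' * M ^ 2 := by nlinarith
  refine ⟨stc (|b| + 1) (c' * M ^ 2) c', one_le_stc hb hc'M hc', ?_⟩
  intro n hn K L hK hL hS hcube
  have hn0 : (0 : ℝ) < n := by exact_mod_cast hn
  obtain ⟨hk1, hkn, hnJ⟩ := ceil_facts hα (by linarith) hn
  have h2k : 2 * ⌈α * n⌉₊ ≤ n + 1 := by
    have h1 : ((⌈α * n⌉₊ - 1 : ℕ) : ℝ) < α * n := Nat.lt_ceil.1 (by omega)
    have h2 : ((⌈α * n⌉₊ - 1 : ℕ) : ℝ) * 2 < n := by nlinarith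
    have h3 : (⌈α * n⌉₊ - 1) * 2 < n := by exact_mod_cast h2
    omega
  obtain ⟨p, hp, hKp⟩ := hK.exists_seminorm
  obtain ⟨r, hr, hLr⟩ := hL.exists_seminorm
  have H : Hyp (|b| + 1) ⌈α * n⌉₊ p r := hS.hyp hp hr hKp hLr
  generalize ⌈α * n⌉₊ = k at *
  have hfr : finrank ℝ (Fin n → ℝ) = Fintype.card (Fin (n - k)) + k := by
    rw [Module.finrank_fintype_fun_eq_card, Fintype.card_fin, Fintype.card_fin]; omega
  have key : ∀ p r : Seminorm ℝ (Fin n → ℝ), Def p → Def r → Hyp (|b| + 1) k p r →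
      (∃ (i : (Fin (n - k) → ℝ) →ₗ[ℝ] (Fin n → ℝ)) (φ : (Fin n → ℝ) →ₗ[ℝ] (Fin (n - k) → ℝ)),
        (∀ a, φ (i a) = a) ∧ (∀ a, p (i a) ≤ ‖a‖) ∧ ∀ x, ‖φ x‖ ≤ M ^ 2 * p x) →
      Iso (stc (|b| + 1) (c' * M ^ 2) c') p r := by
    rintro p r hp hr H ⟨i, φ, hφ, q1, q2⟩
    have hi : Function.Injective i := Function.LeftInverse.injective hφ
    have hA : Iso c' (p.comp i) (r.comp i) := by
      by_cases hm : k ≤ n - k
      · have hg := hI k (n - k) hk1 hm (by omega)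
        rcases good_apply hb hM2 hg hr H i hi q1 (fun a => by
          have := q2 (i a)
          rwa [hφ] at this) with h | h
        · refine h.mono ?_
          show M ^ 2 * c ≤ M ^ 2 * c + 25 * (|b| + 1)
          linarith
        · linarith
      · obtain ⟨k', rfl⟩ : ∃ k', k = k' + 1 := ⟨k - 1, by omega⟩
        have H0 : Hyp (25 * (|b| + 1)) k' p r := H.pred hb hp (by
          rw [Module.finrank_fintype_fun_eq_card, Fintype.card_fin]; exact hkn)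
        have h := H0.inj i hi (by
          rw [Module.finrank_fintype_fun_eq_card, Fintype.card_fin]; omega)
        refine h.mono ?_
        show 25 * (|b| + 1) ≤ M ^ 2 * c + 25 * (|b| + 1)
        linarith
    obtain ⟨_, _, _, _, _, _, h⟩ := cube_step hb hM2 hc' H i φ hφ q1 q2 hfr hA
    exact h
  have hst : 1 ≤ stc (|b| + 1) (c' * M ^ 2) c' := one_le_stc hb hc'M hc'
  rcases hcube with hcube | hcube
  · exact (key p r hp hr H (cubeSection_data hM hp hKp hcube)).dBM_le hst hKp hLr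
  · exact ((key r p hr hp (H.symm (by linarith)) (cubeSection_data hM hr hLr hcube)).symm
      (by linarith)).dBM_le hst hKp hLr

end Pool.Agent.MP3e8c7ak
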